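import Pool.Agent.Q37.GU.Defs

/-!
Project GU: basic facts on germs.
-/

open CategoryTheory CategoryTheory.Limits AlgebraicGeometry Topology

namespace Pool.Agent.Q37.GU

open Pool.Agent.W481

section germs

variable {T S R : Type} [TopologicalSpace T] [TopologicalSpace S] [TopologicalSpace R]

theorem gm_eq_iff {u v : T → ℂ} {x : T} : gm u x = gm v x ↔ u =ᶠ[𝓝 x] v :=
  Filter.Germ.coe_eq

theorem exists_gm {x : T} (g : G x) : ∃ u : T → ℂ, g = gm u x := by
  induction g using Filter.Germ.inductionOn with | _ u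
  exact ⟨u, rfl⟩

theorem gp_gm (f : C(T, S)) {x : T} {x' : S} (hx : f x = x') (u : S → ℂ) :
    gp f hx (gm u x') = gm (fun t => u (f t)) x := rfl

theorem gp_id {x : T} (hx : ContinuousMap.id T x = x) (g : G x) :
    gp (ContinuousMap.id T) hx g = g := by
  obtain ⟨u, rfl⟩ := exists_gm g
  rfl

theorem gp_comp (f : C(T, S)) (h : C(S, R)) {x : T} {x' : S} {x'' : R} (hx : f x = x')
    (hx' : h x' = x'') (hx'' : (h.comp f) x = x'') (g : G x'') :
    gp (h.comp f) hx'' g = gp f hx (gp h hx' g) := by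
  obtain ⟨u, rfl⟩ := exists_gm g
  rfl

theorem gp_congr {f h : C(T, S)} (e : f = h) {x : T} {x' : S} (hx : f x = x') (hx' : h x = x')
    (g : G x') : gp f hx g = gp h hx' g := by
  subst e
  rfl

theorem cst_gp (f : C(T, S)) {x : T} {x' : S} (hx : f x = x') {g : G x'} (hg : Cst g) :
    Cst (gp f hx g) := by
  obtain ⟨c, rfl⟩ := hg
  exact ⟨c, rfl⟩

theorem cst_of_gp (f : C(T, S)) {x : T} {x' : S} (hx : f x = x')
    (hf : Function.Injective (gp f hx : G x' → G x)) {g : G x'} (hg : Cst (gp f hx g)) :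
    Cst g := by
  obtain ⟨c, hc⟩ := hg
  exact ⟨c, hf hc⟩

end germs

theorem vf_apply {X : Over SpecC} (u : Γ(X.left, ⊤)) (x : Pt X) :
    vf u x = x.value (mem_top x) u := rfl

theorem vf_push {X Y : Over SpecC} (f : X ⟶ Y) (u : Γ(Y.left, ⊤)) (x : Pt X) :
    vf (X := X) (f.left.appTop u) x = vf u (pushC f x) :=
  (value_push f x ⊤ (mem_top _) u).symm

theorem vf_sub {X : Over SpecC} (u v : Γ(X.left, ⊤)) (x : Pt X) :
    vf (u - v) x = vf u x - vf v x := map_sub (x.value (mem_top x)) u v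

theorem vf_add {X : Over SpecC} (u v : Γ(X.left, ⊤)) (x : Pt X) :
    vf (u + v) x = vf u x + vf v x := map_add (x.value (mem_top x)) u v

theorem vf_mul {X : Over SpecC} (u v : Γ(X.left, ⊤)) (x : Pt X) :
    vf (u * v) x = vf u x * vf v x := map_mul (x.value (mem_top x)) u v

theorem vf_one {X : Over SpecC} (x : Pt X) : vf (1 : Γ(X.left, ⊤)) x = 1 := map_one (x.value (mem_top x))

theorem vf_zero {X : Over SpecC} (x : Pt X) : vf (0 : Γ(X.left, ⊤)) x = 0 := map_zero (x.value (mem_top x))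

/-- continuation preserves being a branch -/
theorem tr_isBr {μ : ℂ} {X : Over SpecC} {x y : Pt X} {γ : PH x y} {g : G x} {g' : G y}
    (h : Tr μ X γ g g') : IsBr μ X x g ∧ IsBr μ X y g' := by
  obtain ⟨Z, f, h1, h2, u, hu, z, w, hz, hw, q, hq, e1, e2⟩ := h
  exact ⟨⟨Z, f, h1, h2, u, hu, z, hz, e1⟩, ⟨Z, f, h1, h2, u, hu, w, hw, e2⟩⟩

theorem pushC_comp' {X Y Z : Over SpecC} (f : X ⟶ Y) (g : Y ⟶ Z) :
    (pushC g).comp (pushC f) = pushC (f ≫ g) := pushC_comp f g

end Pool.Agent.Q37.GU
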