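import Pool.Agent.Q37.GU.Defs

/-!
Project GU (MP_8178ab_ag), statements.
Plan. The functor is `π(X)(x,y) = PH x y × (NB μ X x → A)`, `A` a big abelian group, `μ`
transcendental: paths together with functions on the set of nonconstant branches at the source.
Branches are transported along paths (`T2`, `T5`, `T6`, `T11`), pulled back by morphisms (`T7`),
the same for `X` and a finite étale cover (`T10`), and `NB` of a product is the disjoint union
(`P16`), because a function omitting `0` and `1` on a cover of a product depends on one factor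
(`P15`), which follows from the multiplicative separation of units (`P11`, `P14`). Varieties over
the algebraic numbers have no nonconstant branch (`Q5`).
-/

open CategoryTheory CategoryTheory.Limits AlgebraicGeometry Topology
open scoped TensorProduct

namespace Pool.Agent.Q37.GU

open Pool.Agent.W481

/-! ### Group T: germs and transport -/

/-- T1. Pull-back of germs along a local homeomorphism is bijective. Proof: `hf x` gives an open
local chart `OpenPartialHomeomorph` `e` with `x ∈ e.source` and `f = e`; inverse of `gp`: pull back along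
`e.symm` (only continuous on `e.target`, so use `Filter.Germ.compTendsto` with
`e.symm.continuousAt` ), or directly: `𝓝 x' = map f (𝓝 x)` (`IsLocalHomeomorph.map_nhds_eq`)
gives injectivity; for surjectivity of the germ of `u` take the germ of `u ∘ e.symm`. -/
def S_T1 : Prop := ∀ (T S : Type) [TopologicalSpace T] [TopologicalSpace S] (f : C(T, S))
  (_ : IsLocalHomeomorph f) (x : T) (x' : S) (hx : f x = x'),
  Function.Bijective (gp f hx : G x' → G x)

/-- T3. A nonzero element `h` of a smooth domain `B` over `ℂ` is nonzero on a dense set. Proof.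
Suppose `h = 0` on a nonempty open `O ⊆ Sp B`, `φ₀ ∈ O`. As in `W327.F4.smooth_chart`, there is
`f ∈ B`, `φ₀ f ≠ 0`, with `B_f` standard étale over `P = ℂ[x₁..xₙ]`; `Sp B_f → Sp P ≃ ℂⁿ` is open
(`isLocalHomeomorph_comap`). `B_f` is a domain, quasi-finite over the domain `P`, so `h` is
algebraic over `P` (`Algebra.IsStandardEtale` gives a presentation `P[x]/(monic)` localised: every
element is algebraic) and, `h ≠ 0` and `B_f` a domain, there are `p ∈ P`, `p ≠ 0` and `b ∈ B_f`
with `p = h * b` (constant coefficient of a polynomial relation of minimal degree). So `p = 0` on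
a nonempty open subset of `ℂⁿ`, contradiction with `W327.F4.dense_ne`. (If `P → B_f` were not
injective: standard étale is flat, a nonzero flat algebra over a domain which is a domain is
torsion free, so it is.) -/
def S_T3 : Prop := ∀ (B : Type) [CommRing B] [Algebra ℂ B] [IsDomain B] [Algebra.Smooth ℂ B]
  (h : B), h ≠ 0 → Dense {φ : Sp B | φ.hom h ≠ 0}

/-- P4. The local rings of a smooth `ℂ`-algebra are domains. Proof:
`Pool.Agent.H920R2.regular_of_smooth` (module `Pool.Agent.H920R2.Sr1`): they are regular local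
rings; regular local rings are domains (search Mathlib and the library: `grep -rn
IsRegularLocalRing` together with `IsDomain`). -/
def S_P4 : Prop := ∀ (C : Type) [CommRing C] [Algebra ℂ C] [Algebra.Smooth ℂ C] (q : Ideal C)
  [q.IsPrime], IsDomain (Localization.AtPrime q)

/-- P5. The connected component of a point. Proof. `C` is noetherian with all local rings domains
(`P4`), so reduced, and two different minimal primes are comaximal (a maximal ideal above both
would give two minimal primes of the domain `C_m`). Finitely many minimal primes `p₁ … p_r`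
(`minimalPrimes.finite_of_isNoetherianRing`), Chinese remainder: `C ≃ ∏ C/p_i`. `ker ψ₀` contains
exactly one `p_i`; `e` := the idempotent which is `1` in `C/p_i` and `0` in the others; then
`C_e ≃ C/p_i` is a domain and `ψ₀ e = 1`. -/
def S_P5 : Prop := ∀ (C : Type) [CommRing C] [Algebra ℂ C] [Algebra.Smooth ℂ C] (ψ₀ : Sp C),
  ∃ e : C, e * e = e ∧ ψ₀.hom e = 1 ∧ IsDomain (Localization.Away e)

/-- T4. Charts which are domains. Proof: `exists_affine_chart` gives a chart `specOver A ⟶ X`,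
`A` is smooth (`W327.F4.smooth_algebra`, see the proof of `W327.F4.smooth_chart`); then `P5` gives
`e ∈ A`, take `B = Localization.Away e` (smooth; `W327.F4.openImm_away`, `W327.F4.extSp`,
`W327.F4.comap_extSp`, exactly as in the end of the proof of `W327.F4.smooth_chart`). -/
def S_T4 : Prop := ∀ (X : Over SpecC), Smooth X.hom → ∀ x : Pt X,
  ∃ (B : Type) (_ : CommRing B) (_ : Algebra ℂ B) (_ : IsDomain B) (_ : Algebra.Smooth ℂ B)
    (i : specOver B ⟶ X) (_ : IsOpenImmersion i.left) (φ : Sp B), (spPt φ).push i = x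

/-- T2. Identity theorem along paths (`T3`, `T4`). Proof. Work with `w := u - v` (`vf` is
compatible with ring operations). The set of the `z` with `w = 0` near `z` is open. Its complement
is open: let `w` not vanish identically near `z`; take the chart `B` of `T4` at `z`; the restriction
`h ∈ B` of `w` (`unit_chart`, `glob`, `value_push` in the library) is not `0`, so by `T3` the set
`h ≠ 0` is dense in `Sp B`, hence `w` is not identically zero near any point of the chart, which is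
an open set (`isOpenEmbedding_push`). So the set is clopen; the pull-back to `[0,1]` along a path
representing the class is clopen and contains `0`. (Germs: `gm a x = gm b x ↔ a =ᶠ[𝓝 x] b` is
`Filter.Germ.coe_eq`.) -/
def S_T2 : Prop := ∀ (X : Over SpecC), Smooth X.hom → ∀ (u v : Γ(X.left, ⊤)) (x y : Pt X),
  PH x y → gm (vf u) x = gm (vf v) x → gm (vf u) y = gm (vf v) y

/-- T9. Constant functions are regular. Proof: `u = X.hom.appTop ((Scheme.ΓSpecIso _).inv c)`. -/
def S_T9 : Prop := ∀ (X : Over SpecC) (c : ℂ), ∃ u : Γ(X.left, ⊤), ∀ x : Pt X, vf u x = c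

/-- T5. Branches can be continued (`T1`). Proof: `cover_main` says that `pushC f` is a covering;
`PH_lift_exists` lifts `γ` to a class `q` from `z` to some `w`; take `g'` with
`gp (pushC f) hw g' = gm (vf u) w`, it exists by `T1` (`IsCoveringMap.isLocalHomeomorph`). -/
def S_T5 : Prop := ∀ (μ : ℂ) (X : Over SpecC) (x y : Pt X) (γ : PH x y) (g : G x),
  IsBr μ X x g → ∃ g' : G y, Tr μ X γ g g'

/-- T6. The continuation is unique (`T1`, `T2`). Proof. Two presentations `(Z, f, u, z, w, q)` and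
`(Z', f', u', z', w', q')`. `exists_base_change f f'` (with `Y := X`) gives `W` with `a : W ⟶ Z`
(finite étale), `b : W ⟶ Z'`, `a ≫ f = b ≫ f'` and a point `v` above `z` and `z'`. Lift `q` along the
covering `a` to a class `r` from `v` to `v₁` (`PH_lift_exists`). `b_* r` is a class from `z'` which
lifts `γ` along `f'`, so by `PH_lift_unique` it ends at `w'` (`v₁.push b = w'`). `W` is smooth over
`ℂ` (étale over `Z`, étale over `X`). The functions `a^* u` and `b^* u'` (`f.left.appTop u`,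
`value_push`) have the same germ at `v` (both are the pull-back of `g`), hence by `T2` the same germ
at `v₁`; so `g₁` and `g₂` have the same pull-back to `v₁`, and `T1` for `a ≫ f`, a covering. -/
def S_T6 : Prop := ∀ (μ : ℂ) (X : Over SpecC), Smooth X.hom → ∀ (x y : Pt X) (γ : PH x y)
  (g : G x) (g₁ g₂ : G y), Tr μ X γ g g₁ → Tr μ X γ g g₂ → g₁ = g₂

/-- T7a. Pull-back of branches. Proof: `exists_base_change f h` for the cover `h : Z ⟶ Y` gives
`a : W ⟶ X` finite étale, `b : W ⟶ Z`, `a ≫ f = b ≫ h` and a point `w`; the function is `b^* u`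
(`b.left.appTop u`, values by `value_push`). -/
def S_T7a : Prop := ∀ (μ : ℂ) (X Y : Over SpecC) (f : X ⟶ Y) (x : Pt X) (x' : Pt Y)
  (hx : pushC f x = x') (g : G x'), IsBr μ Y x' g → IsBr μ X x (gp (pushC f) hx g)

/-- T7b. Pull-back and continuation commute. Proof: as `T7a`: with `(Z, h, u, z, w, q)` for `Y`,
base change gives `W`, `a`, `b`, a point `v` above `x` and `z`; lift `γ` along the covering `a` to
`r` from `v` to `v₁`; then `b_* r` and `q` are two lifts of the same class along the covering `h`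
with the same source `z`, so `PH_lift_unique`: `b v₁ = w`. See the proof of `good_map` in
`Pool.Agent.W481.Good`, which is the same argument. -/
def S_T7b : Prop := ∀ (μ : ℂ) (X Y : Over SpecC) (f : X ⟶ Y) (x y : Pt X) (x' y' : Pt Y)
  (hx : pushC f x = x') (hy : pushC f y = y') (γ : PH x y) (g : G x') (g' : G y'),
  Tr μ Y (PHmap (pushC f) hx hy γ) g g' → Tr μ X γ (gp (pushC f) hx g) (gp (pushC f) hy g')

/-- T8. Constant branches stay constant (`T1`, `T2`, `T9`). Proof: `u` has near `z` the germ of the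
constant function `c`, a regular function by `T9`, so by `T2` along `q` also near `w`; `g'` has the
same pull-back to `w` as the constant `c`, `T1`. (`Z` is smooth over `ℂ`.) -/
def S_T8 : Prop := ∀ (μ : ℂ) (X : Over SpecC), Smooth X.hom → ∀ (x y : Pt X) (γ : PH x y)
  (g : G x) (g' : G y), Tr μ X γ g g' → Cst g → Cst g'

/-- T10. Branches of a finite étale cover are branches of the base: compose the covers. -/
def S_T10 : Prop := ∀ (μ : ℂ) (X Y : Over SpecC) (f : X ⟶ Y), Etale f.left → IsFinite f.left →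
  ∀ (x : Pt X) (g : G (pushC f x)), IsBr μ X x (gp (pushC f) rfl g) → IsBr μ Y (pushC f x) g

/-- T11. Continuation along the constant path, the inverse path and the composition (`T5`, `T6`).
Proof of the composition: let `(Z, f, u, z, w, q)` present `Tr p g g'`; lift `p'` along `f` starting
at `w` (`PH_lift_exists`) to `q'` with end `w₂` and choose `g₂` with pull-back `u` at `w₂` (`T1`);
then `Tr p' g' g₂` and `Tr (p.trans p') g g₂` (`PHmap_trans`), and `g₂ = g''` by `T6`. -/
def S_T11 : Prop := ∀ (μ : ℂ) (X : Over SpecC), Smooth X.hom →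
  (∀ (x : Pt X) (g : G x), IsBr μ X x g → Tr μ X (.refl x) g g) ∧
  (∀ (x y : Pt X) (γ : PH x y) (g : G x) (g' : G y), Tr μ X γ g g' → Tr μ X γ.symm g' g) ∧
  (∀ (x y z : Pt X) (p : PH x y) (p' : PH y z) (g : G x) (g' : G y) (g'' : G z),
    Tr μ X p g g' → Tr μ X p' g' g'' → Tr μ X (p.trans p') g g'')

/-! ### Group P: products -/

/-- The specialisation `K ⊗ B → K` at a point of `B`. -/
noncomputable def evK {K B : Type} [Field K] [Algebra ℂ K] [CommRing B] [Algebra ℂ B]
    (y : B →ₐ[ℂ] ℂ) : K ⊗[ℂ] B →ₐ[ℂ] K :=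
  Algebra.TensorProduct.lift (AlgHom.id ℂ K) ((Algebra.ofId ℂ K).comp y)
    (fun _ _ => Commute.all _ _)

/-- P1. Proof. Let `κ` be the residue field of `V` (a field extension of `ℂ`); `κ ⊗ B` is a domain
(`B` a domain over the algebraically closed field `ℂ`; Mathlib: `Algebra.TensorProduct` with
`IsDomain`/`NoZeroDivisors`, geometrically integral). Write `u = ∑ a_i ⊗ b_i` with `b_i` linearly
independent over `ℂ` (a basis of `B`), `a_m` of maximal valuation (`≠ 0`): `u/a_m` lies in the image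
of `V ⊗ B` and its reduction in `κ ⊗ B` is not zero (coefficient `1` at `b_m`). The same for `u'`
with `a'_n`. The product `(a_m a'_n)⁻¹ ⊗ 1` then lies in `V ⊗ B` with nonzero reduction, so
`(a_m a'_n)⁻¹ ∈ V` is a unit of `V` (compare coordinates in a basis of `B`; take a basis of `B`
containing `1`, or evaluate at `y`: `evK y` maps `V ⊗ B` to `V`, so `(a_m a'_n)⁻¹ ∈ V`; and if it
were in the maximal ideal its reduction would be zero). Evaluate: `evK y (u/a_m)` and
`evK y (u'/a'_n)` lie in `V` and their product is a unit of `V`, so `v(evK y u) = v(a_m)` for every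
`y`. -/
def S_P1 : Prop := ∀ (K B : Type) [Field K] [Algebra ℂ K] [CommRing B] [Algebra ℂ B] [IsDomain B]
  (V : ValuationSubring K) (_ : ∀ c : ℂ, algebraMap ℂ K c ∈ V) (u u' : K ⊗[ℂ] B)
  (_ : u * u' = 1) (y y' : B →ₐ[ℂ] ℂ), V.valuation (evK y u) = V.valuation (evK y' u)

/-- P2. An element of a field extension of `ℂ` contained in all valuation rings over `ℂ` is in
`ℂ`. Proof: the intersection of the valuation rings containing a subring is its integral closure
(Mathlib: search `ValuationSubring` with `IsIntegral` / `exists_le_valuationSubring_of_`), and `ℂ`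
is algebraically closed. -/
def S_P2 : Prop := ∀ (K : Type) [Field K] [Algebra ℂ K] (f : K),
  (∀ V : ValuationSubring K, (∀ c : ℂ, algebraMap ℂ K c ∈ V) → f ∈ V) →
    ∃ c : ℂ, f = algebraMap ℂ K c

/-- P3. Units of a product (Rosenlicht), from `P1`, `P2`. Proof. `K` = fraction field of `A`,
`u' = u⁻¹`. For two points `y, y'` of `B` the elements `u(y), u(y') ∈ A` (images of `u` under
`id ⊗ y`) are units of `A` and `u(y)/u(y')` has value `1` in all valuation rings over `ℂ` (`P1`
applied to the images in `K ⊗ B`), so it is a constant `c(y)` by `P2`. Fix `y'` (exists: `B` is a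
nonzero finitely generated algebra) and `a = u(y')`. Write `u = ∑ a_i ⊗ b_i` in a basis `a_i` of
`A` over `ℂ` containing coordinates `λ_i` of `a = ∑ λ_i a_i`: `b_i(y) = c(y) λ_i` for all `y`, take
`i₀` with `λ_{i₀} ≠ 0` and `b = b_{i₀}/λ_{i₀}`: `b_i(y) = λ_i b(y)` for all points `y`, so
`b_i = λ_i b` (`B` is a finitely generated domain over `ℂ`: an element vanishing at all points is
zero, Nullstellensatz / Jacobson) and `u = a ⊗ b`. -/
def S_P3 : Prop := ∀ (A B : Type) [CommRing A] [CommRing B] [Algebra ℂ A] [Algebra ℂ B]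
  [IsDomain A] [IsDomain B] [Algebra.FiniteType ℂ A] [Algebra.FiniteType ℂ B] (u : A ⊗[ℂ] B),
  IsUnit u → ∃ (a : A) (b : B), u = a ⊗ₜ b

/-- P6. Proof: `specOver B` is smooth over `ℂ` (`smooth_specOver`), `Spec B` is connected
(irreducible); `conn_main` gives a class of paths between any two complex points of `specOver B`;
`isHomeomorph_spPt`. -/
def S_P6 : Prop := ∀ (B : Type) [CommRing B] [Algebra ℂ B] [IsDomain B] [Algebra.Smooth ℂ B]
  (φ ψ : Sp B), Nonempty (Path φ ψ)

/-- P7. A finite étale algebra over a domain with exactly one point above one point is trivial.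
Proof. `T` is a finite flat finitely presented `D`-module, of constant rank since `D` is a domain
(`Module.rankAtStalk`, locally constant, `PrimeSpectrum D` irreducible). The fibre at `δ`,
`ℂ ⊗_D T`, is a finite étale `ℂ`-algebra, so a product of copies of `ℂ`, their number is the number
of points of `T` above `δ`, that is `1`, and it is the rank at `ker δ`. So the rank is `1` and
`Module.algebraMap_bijective_iff_rankAtStalk` applies. -/
def S_P7 : Prop := ∀ (D T : Type) [CommRing D] [Algebra ℂ D] [IsDomain D] [CommRing T]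
  [Algebra ℂ T] [Algebra D T] [IsScalarTower ℂ D T] [Algebra.Etale D T] [Module.Finite D T]
  (δ : Sp D) (τ : Sp T) (_ : ∀ d, τ.hom (algebraMap D T d) = δ.hom d)
  (_ : ∀ τ' : Sp T, (∀ d, τ'.hom (algebraMap D T d) = δ.hom d) → τ' = τ),
  Function.Bijective (algebraMap D T)

/-- P8. Topology of a fibre product over a product. Proof. Let `γ` be the path from `w0` to `w1`,
`p ∘ γ = (γ₁, γ₂)`, loops at `c1`, `c2`. In `PH` of `S1 × S2` the class of `p ∘ γ` is the class of
`(γ₁, c2)` followed by `(c1, γ₂)` (`PH_prod_bijective` with the two projections, or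
`Path.Homotopic.prod`), so `δ ∘ p ∘ γ = f ∘ F ∘ γ` is homotopic to `f ∘ (m1 ∘ γ₁)` followed by
`f ∘ (m2 ∘ γ₂)`. Thus `F ∘ γ` and `(m1 ∘ γ₁).trans (m2 ∘ γ₂)` are two lifts with source `m1 c1` of
the same class: `PH_lift_unique` gives the same end point, `F w1 = m2 c2 = m1 c1`. -/
def S_P8 : Prop := ∀ (S1 S2 W Z P : Type) [TopologicalSpace S1] [TopologicalSpace S2]
  [TopologicalSpace W] [TopologicalSpace Z] [TopologicalSpace P] (f : C(Z, P))
  (_ : IsCoveringMap f) (δ : C(S1 × S2, P)) (p : C(W, S1 × S2)) (F : C(W, Z))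
  (_ : ∀ w, f (F w) = δ (p w)) (m1 : C(S1, Z)) (m2 : C(S2, Z)) (c1 : S1) (c2 : S2)
  (_ : ∀ s, f (m1 s) = δ (s, c2)) (_ : ∀ s, f (m2 s) = δ (c1, s)) (_ : m1 c1 = m2 c2)
  (w0 w1 : W) (_ : p w0 = (c1, c2)) (_ : p w1 = (c1, c2)) (_ : F w0 = m1 c1)
  (_ : Path w0 w1), F w1 = m1 c1

/-- P9. Base change of a finite étale algebra and connected component (`P5`). Proof. `S` is an
`R`-algebra through `r`, `W := S ⊗[R] C` is finite étale over `S`, smooth over `ℂ`; the point
`(φ, ψ₀)` of `W` (`exists_tensor_pt`); `P5` gives an idempotent `e`, `T := Localization.Away e`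
(étale over `W`; finite over `W` because `W → W_e` is surjective for an idempotent), `m` the
composition `C → W → T`, `τ` the extension of the point (`extAway`). A point of `T` is determined by
its restriction to `W`, which is determined by the values on `s ⊗ 1` and `1 ⊗ c`. -/
def S_P9 : Prop := ∀ (R C S : Type) [CommRing R] [CommRing C] [CommRing S] [Algebra ℂ R]
  [Algebra ℂ C] [Algebra ℂ S] [Algebra R C] [IsScalarTower ℂ R C] [Algebra.Etale R C]
  [Module.Finite R C] [Algebra.Smooth ℂ S] (r : R →ₐ[ℂ] S) (ψ₀ : Sp C) (φ : Sp S)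
  (_ : ∀ x, φ.hom (r x) = ψ₀.hom (algebraMap R C x)),
  ∃ (T : Type) (_ : CommRing T) (_ : Algebra ℂ T) (_ : Algebra S T) (_ : IsScalarTower ℂ S T)
    (_ : IsDomain T) (_ : Algebra.Etale S T) (_ : Module.Finite S T) (m : C →ₐ[ℂ] T)
    (τ : Sp T), (∀ x, m (algebraMap R C x) = algebraMap S T (r x)) ∧
    (∀ s, τ.hom (algebraMap S T s) = φ.hom s) ∧ (∀ c, τ.hom (m c) = ψ₀.hom c) ∧
    (∀ τ₁ τ₂ : Sp T, (∀ s, τ₁.hom (algebraMap S T s) = τ₂.hom (algebraMap S T s)) →
      (∀ c, τ₁.hom (m c) = τ₂.hom (m c)) → τ₁ = τ₂)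

/-- P10. A finite étale algebra over a product is split, near a point, by a product of finite étale
covers of the factors (`P6`, `P7`, `P8`, `P9`). Proof. `R ≃ A ⊗ B`. Points `α := ψ₀|A`,
`β := ψ₀|B`. `P9` for `r := id ⊗ β : R → A` (compose the inverse of the bijection with
`Algebra.TensorProduct.lift`), `φ = α`: `C1`, `m1 : C → C1`, `c1`. `P9` for `α ⊗ id : R → B`: `C2`,
`m2`, `c2`. `D := C1 ⊗[ℂ] C2` is a domain (`ℂ` algebraically closed), smooth over `ℂ`; `P9` for
`r : R ≃ A ⊗ B → D`, `φ = c1 ⊗ c2`: `T`, `m : C → T`, `τ`. `P8` with `S1 = Sp C1`, `S2 = Sp C2`,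
`W = Sp T`, `Z = Sp C`, `P = Sp R`, `f` the covering of `etale_covering`, `p` given by
`T ← C1, C2`, `F = Sp.comap m`, and `P6` for `T` (a domain smooth over `ℂ`): every point `τ'` of `T`
above `c1 ⊗ c2` has `τ' ∘ m = ψ₀`, so `τ' = τ` (last property of `P9`). `P7`: `D → T` is bijective;
`Φ := (D ≃ T)⁻¹ ∘ m`. -/
def S_P10 : Prop := ∀ (A B R C : Type) [CommRing A] [CommRing B] [CommRing R] [CommRing C]
  [Algebra ℂ A] [Algebra ℂ B] [Algebra ℂ R] [Algebra ℂ C] [Algebra R C] [IsScalarTower ℂ R C]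
  [Algebra.Smooth ℂ A] [Algebra.Smooth ℂ B] [Algebra.Etale R C] [Module.Finite R C]
  (i : A →ₐ[ℂ] R) (j : B →ₐ[ℂ] R)
  (_ : Function.Bijective (Algebra.TensorProduct.lift i j (fun _ _ => Commute.all _ _) :
    A ⊗[ℂ] B →ₐ[ℂ] R)) (ψ₀ : Sp C),
  ∃ (C1 C2 : Type) (_ : CommRing C1) (_ : CommRing C2) (_ : Algebra ℂ C1) (_ : Algebra ℂ C2)
    (_ : Algebra A C1) (_ : Algebra B C2) (_ : IsScalarTower ℂ A C1) (_ : IsScalarTower ℂ B C2)
    (_ : IsDomain C1) (_ : IsDomain C2) (_ : Algebra.Etale A C1) (_ : Algebra.Etale B C2)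
    (_ : Module.Finite A C1) (_ : Module.Finite B C2) (c1 : Sp C1) (c2 : Sp C2)
    (Φ : C →ₐ[ℂ] C1 ⊗[ℂ] C2),
    (∀ a, Φ (algebraMap R C (i a)) = algebraMap A C1 a ⊗ₜ 1) ∧
    (∀ b, Φ (algebraMap R C (j b)) = 1 ⊗ₜ algebraMap B C2 b) ∧
    (∀ c, Algebra.TensorProduct.lift c1.hom c2.hom (fun _ _ => Commute.all _ _) (Φ c) =
      ψ₀.hom c)

/-- P11. Units on a cover of a product are locally products (`P10`, `P3`). Proof. `Φ v` is a unit
of `C1 ⊗ C2` (finitely generated domains), so `Φ v = a ⊗ b` by `P3`. The map `Sp C → Sp R` is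
injective on a neighbourhood `N₀` of `ψ₀` (`isLocalHomeomorph_comap`); `Sp C1 → Sp A`,
`Sp C2 → Sp B` are local homeomorphisms, with local sections `s1`, `s2` through `c1`, `c2`. For `ψ`
near `ψ₀` put `ψ' := (s1 (ψ|A) ⊗ s2 (ψ|B)) ∘ Φ`, a point of `C` near `ψ₀` above the same point of `R`
as `ψ` (`R` is generated by `i A`, `j B`), so `ψ' = ψ` and `ψ v = a(s1(ψ|A)) * b(s2(ψ|B))`. The
same for `ψ₁`, `ψ₂`, `ψ₀`, and the identity follows (`ψ₁|A = ψ|A`, `ψ₁|B = ψ₀|B`, ...). -/
def S_P11 : Prop := ∀ (A B R C : Type) [CommRing A] [CommRing B] [CommRing R] [CommRing C]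
  [Algebra ℂ A] [Algebra ℂ B] [Algebra ℂ R] [Algebra ℂ C] [Algebra R C] [IsScalarTower ℂ R C]
  [Algebra.Smooth ℂ A] [Algebra.Smooth ℂ B] [Algebra.Etale R C] [Module.Finite R C]
  (i : A →ₐ[ℂ] R) (j : B →ₐ[ℂ] R)
  (_ : Function.Bijective (Algebra.TensorProduct.lift i j (fun _ _ => Commute.all _ _) :
    A ⊗[ℂ] B →ₐ[ℂ] R)) (v : C) (_ : IsUnit v) (ψ₀ : Sp C),
  ∃ N ∈ 𝓝 ψ₀, ∀ ψ ∈ N, ∀ ψ₁ ∈ N, ∀ ψ₂ ∈ N,
    (∀ a, ψ₁.hom (algebraMap R C (i a)) = ψ.hom (algebraMap R C (i a))) →
    (∀ b, ψ₁.hom (algebraMap R C (j b)) = ψ₀.hom (algebraMap R C (j b))) →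
    (∀ a, ψ₂.hom (algebraMap R C (i a)) = ψ₀.hom (algebraMap R C (i a))) →
    (∀ b, ψ₂.hom (algebraMap R C (j b)) = ψ.hom (algebraMap R C (j b))) →
    ψ.hom v * ψ₀.hom v = ψ₁.hom v * ψ₂.hom v

/-- P13. Nullstellensatz: an element without zeros is a unit. Proof: otherwise a maximal ideal
contains it, its residue field is `ℂ`. -/
def S_P13 : Prop := ∀ (C : Type) [CommRing C] [Algebra ℂ C] [Algebra.FiniteType ℂ C] (v : C),
  (∀ ψ : Sp C, ψ.hom v ≠ 0) → IsUnit v

/-- P14. The scheme version of `P11` (`P11`, `P13`). Proof. Affine charts `specOver A ⟶ X`,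
`specOver B ⟶ Y` at the two coordinates of `pushC f z₀` (`exists_affine_chart`; smooth:
`W327.F4.smooth_algebra`), the chart `Spec (A ⊗ B)` of `P` (`exists_tensor_pullback` and the
comparison of `P` with `pullback X.hom Y.hom` as in the proof of `prod_homeo`), the chart
`specOver C ⟶ Z` above it (`exists_cover_chart`: `C` finite étale over `A ⊗ B`), the restriction of
`v` to `C` (`unit_chart` in `Pool.Agent.W481.LocalGood` shows how) is a unit by `P13`; `P11` with
`R = A ⊗ B`; `N` is the image of the neighbourhood of `P11` (open embedding). -/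
def S_P14 : Prop := ∀ (X Y P Z : Over SpecC), Smooth X.hom → Smooth Y.hom →
  ∀ (p : P ⟶ X) (q : P ⟶ Y) (_ : IsLimit (BinaryFan.mk p q)) (f : Z ⟶ P) (_ : Etale f.left)
  (_ : IsFinite f.left) (v : Γ(Z.left, ⊤)) (_ : ∀ z : Pt Z, vf v z ≠ 0) (z₀ : Pt Z),
  ∃ N ∈ 𝓝 z₀, ∀ z ∈ N, ∀ z₁ ∈ N, ∀ z₂ ∈ N,
    pushC p (pushC f z₁) = pushC p (pushC f z) → pushC q (pushC f z₁) = pushC q (pushC f z₀) →
    pushC p (pushC f z₂) = pushC p (pushC f z₀) → pushC q (pushC f z₂) = pushC q (pushC f z) →
    vf v z * vf v z₀ = vf v z₁ * vf v z₂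

/-- P15. A branch on a product comes from a factor, as a germ (`P14`). Proof. Apply `P14` to `u` and
to `u - 1` (regular functions without zeros), on a common neighbourhood. `h := vf u`, `c := h z₀`
(`≠ 0`). From `h z * c = h z₁ * h z₂` and `(h z - 1)(c - 1) = (h z₁ - 1)(h z₂ - 1)` follow
`h z + c = h z₁ + h z₂` and `(h z₁ - c)(h z₂ - c) = 0`. `P(ℂ) ≃ X(ℂ) × Y(ℂ)` (`prod_homeo`), `f` a
local homeomorphism at `z₀` (`cover_main`), so there are neighbourhoods `N₁`, `N₂` of the two
coordinates and a section `s` of `f` on `N₁ × N₂`, continuous with values in `N`; put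
`H (x', y') = h (s (x', y'))`. For all `x' ∈ N₁`, `y' ∈ N₂`: `H(x', y) = c` or `H(x, y') = c`. If
`H(x', y) = c` for all `x' ∈ N₁` then `H(x', y') = H(x, y')`: `g` is the pull-back of the germ of
`H(x, ·)`; otherwise `H(x, y') = c` for all `y'` and `H(x', y') = H(x', y)`. -/
def S_P15 : Prop := ∀ (μ : ℂ) (X Y P : Over SpecC), Smooth X.hom → Smooth Y.hom →
  ∀ (p : P ⟶ X) (q : P ⟶ Y) (_ : IsLimit (BinaryFan.mk p q)) (a : Pt P) (g : G a),
  IsBr μ P a g → (∃ g₁ : G (pushC p a), g = gp (pushC p) rfl g₁) ∨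
    ∃ g₂ : G (pushC q a), g = gp (pushC q) rfl g₂

/-- P16. The nonconstant branches of a product (`P15`, `T7a`). Proof. Slices `i₁ : X ⟶ P`,
`i₂ : Y ⟶ P` through `a` as in the proof of `good_prod` in `Pool.Agent.W481.Functor`
(`i₁ ≫ p = 𝟙`, `i₁ ≫ q` constant). If `g = gp p g₁` then `g₁ = gp i₁ g` is a branch (`T7a`).
Nonconstant: `g` is constant iff `g₁` is (`gp i₁`). The pull-backs from the two factors are
injective and disjoint: restrict to a slice, one side becomes constant. -/
def S_P16 : Prop := ∀ (μ : ℂ) (X Y P : Over SpecC), Smooth X.hom → Smooth Y.hom →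
  ∀ (p : P ⟶ X) (q : P ⟶ Y) (_ : IsLimit (BinaryFan.mk p q)) (a : Pt P),
  ∃ e : NB μ X (pushC p a) ⊕ NB μ Y (pushC q a) ≃ NB μ P a,
    (∀ g, (e (Sum.inl g)).1 = gp (pushC p) rfl g.1) ∧
    ∀ g, (e (Sum.inr g)).1 = gp (pushC q) rfl g.1

/-! ### Group Q: varieties over the algebraic numbers -/

/-- Q1. Charts of varieties over `Qb`. Proof: `X ≅ pullback V.hom toSpecQb`; the image `v ∈ V` of the
point `x` has an affine open neighbourhood `Spec A0 ⊆ V`, `A0` is smooth over `Qb`
(`HasRingHomProperty.Spec_iff` as in `W327.F4.smooth_algebra`); the open subscheme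
`Spec (ℂ ⊗ A0) = Spec A0 ×_{Qb} Spec ℂ` of `baseC V` (as `exists_tensor_pullback` in
`Pool.Agent.W481.Prod`, with `pullbackSpecIso`) contains `x`. -/
def S_Q1 : Prop := ∀ (V : Over SpecQb), Smooth V.hom → ∀ (X : Over SpecC) (_ : X ≅ baseC V)
  (x : Pt X), ∃ (A0 : Type) (_ : CommRing A0) (_ : Algebra Qb A0) (_ : Algebra.Smooth Qb A0)
    (i : specOver (ℂ ⊗[Qb] A0) ⟶ X) (_ : IsOpenImmersion i.left) (φ : Sp (ℂ ⊗[Qb] A0)),
    (spPt φ).push i = x

/-- Q2a. Descent of étale algebras. Proof. `Algebra.Smooth.exists_subalgebra_fg` (Mathlib,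
`RingTheory/Smooth/NoetherianDescent.lean`; étale = standard smooth of relative dimension `0`, so
`Algebra.IsStandardSmoothOfRelativeDimension.exists_subalgebra_fg` keeps étaleness) with `R := Qb`,
`A := ℂ ⊗ A0`, `B := C` gives a finitely generated `Qb`-subalgebra `A'` of `ℂ ⊗ A0` and an étale
`A'`-algebra `B'` with `C ≃ (ℂ ⊗ A0) ⊗_{A'} B'`. Every element of `ℂ ⊗ A0` comes from `S ⊗ A0` with
`S ⊆ ℂ` finitely generated over `Qb`, and `S ⊗ A0 → ℂ ⊗ A0` is injective (`A0` flat over the field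
`Qb`), so `A'` lies in the image of `S₀ ⊗ A0` for some `S₀`, and `S ⊗ A0` is an `A'`-algebra for
`S ≥ S₀`. `D := (S ⊗ A0) ⊗_{A'} B'` is étale over `S ⊗ A0`, and `j : D → (ℂ ⊗ A0) ⊗_{A'} B' ≃ C` is
injective because `B'` is flat over `A'`. `g` := the images of generators of the `A'`-algebra
`B'`. -/
def S_Q2a : Prop := ∀ (A0 : Type) [CommRing A0] [Algebra Qb A0] (C : Type) [CommRing C]
  [Algebra (ℂ ⊗[Qb] A0) C] [Algebra.Etale (ℂ ⊗[Qb] A0) C],
  ∃ (S₀ : Subalgebra Qb ℂ) (_ : S₀.FG) (g : Finset C)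
    (_ : Algebra.adjoin (ℂ ⊗[Qb] A0) (g : Set C) = ⊤), ∀ (S : Subalgebra Qb ℂ), S₀ ≤ S →
  ∃ (D : Type) (_ : CommRing D) (_ : Algebra (S ⊗[Qb] A0) D) (_ : Algebra.Etale (S ⊗[Qb] A0) D)
    (j : D →+* C) (_ : Function.Injective j) (_ : ∀ t : S ⊗[Qb] A0,
      j (algebraMap (S ⊗[Qb] A0) D t) =
        algebraMap (ℂ ⊗[Qb] A0) C (Algebra.TensorProduct.map S.val (AlgHom.id Qb A0) t)),
    j.range = Subring.closure (Set.range (fun t : S ⊗[Qb] A0 =>
      algebraMap (ℂ ⊗[Qb] A0) C (Algebra.TensorProduct.map S.val (AlgHom.id Qb A0) t)) ∪ g)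

/-- Q2. Descent of finite étale algebras (`Q2a`). Proof. Let `S₀`, `g` be as in `Q2a`. The finitely
many elements of `F` are polynomials in the elements of `g` with finitely many coefficients in
`ℂ ⊗ A0`, and every element of `g` is integral over `ℂ ⊗ A0` (`C` is a finite module), a monic
equation with finitely many coefficients; each element of `ℂ ⊗ A0` comes from `S ⊗ A0` for a
finitely generated `S`. Take `S` finitely generated containing `S₀`, `F'` and all that. Then `F` is in
`j.range`, and the `d_k ∈ D` with `j d_k = g_k` generate `D` over `S ⊗ A0` (`j` injective) and are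
integral over `S ⊗ A0` (the equations hold in `D` as `j` is injective); so `D` is a finite module. -/
def S_Q2 : Prop := ∀ (A0 : Type) [CommRing A0] [Algebra Qb A0]
  (C : Type) [CommRing C] [Algebra (ℂ ⊗[Qb] A0) C] [Algebra.Etale (ℂ ⊗[Qb] A0) C]
  [Module.Finite (ℂ ⊗[Qb] A0) C] (F : Finset C) (F' : Finset ℂ),
  ∃ (S : Subalgebra Qb ℂ) (_ : S.FG) (_ : (F' : Set ℂ) ⊆ S) (D : Type) (_ : CommRing D)
    (_ : Algebra (S ⊗[Qb] A0) D) (_ : Algebra.Etale (S ⊗[Qb] A0) D)
    (_ : Module.Finite (S ⊗[Qb] A0) D) (j : D →+* C) (_ : Function.Injective j)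
    (_ : ∀ c ∈ F, ∃ d, j d = c), ∀ t : S ⊗[Qb] A0, j (algebraMap (S ⊗[Qb] A0) D t) =
      algebraMap (ℂ ⊗[Qb] A0) C (Algebra.TensorProduct.map S.val (AlgHom.id Qb A0) t)

/-- Q3. The same with a smooth parameter algebra and units (`Q2`). Proof. `Q2` with
`F = {u, u⁻¹, (u-1)⁻¹, (u-μ)⁻¹}`, `F' = {μ}`: `w, w', …` in `D`; the relations `w w' = 1` hold because
`j` is injective. `S` is a finitely generated domain over the algebraically closed field `Qb` of
characteristic `0`: there is `s ≠ 0` in `S` with `S_s` smooth over `Qb` (generic smoothness: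
Mathlib `AlgebraicGeometry/Morphisms/Smooth.lean` line 348 or `RingTheory/Smooth/Locus.lean`,
`Field.lean`: the fraction field is separably generated so formally smooth, the smooth locus is
open). `R := Localization.Away s`, `ι` the extension of `S ⊆ ℂ`, `D := R ⊗_S D`, i.e.
`(R ⊗ A0) ⊗_{S ⊗ A0} D`, and `j` extends since `s` is invertible in `ℂ`. -/
def S_Q3 : Prop := ∀ (μ : ℂ) (A0 : Type) [CommRing A0] [Algebra Qb A0] (C : Type) [CommRing C] [Algebra (ℂ ⊗[Qb] A0) C]
  [Algebra.Etale (ℂ ⊗[Qb] A0) C] [Module.Finite (ℂ ⊗[Qb] A0) C] (u : C) (_ : IsUnit u)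
  (_ : IsUnit (u - 1)) (_ : IsUnit (u - algebraMap (ℂ ⊗[Qb] A0) C (μ ⊗ₜ 1))),
  ∃ (R : Type) (_ : CommRing R) (_ : IsDomain R) (_ : Algebra Qb R) (_ : Algebra.Smooth Qb R)
    (ι : R →ₐ[Qb] ℂ) (_ : Function.Injective ι) (m : R) (_ : ι m = μ) (D : Type)
    (_ : CommRing D) (_ : Algebra (R ⊗[Qb] A0) D) (_ : Algebra.Etale (R ⊗[Qb] A0) D)
    (_ : Module.Finite (R ⊗[Qb] A0) D) (w : D) (_ : IsUnit w) (_ : IsUnit (w - 1))
    (_ : IsUnit (w - algebraMap (R ⊗[Qb] A0) D (m ⊗ₜ 1))) (j : D →+* C), j w = u ∧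
    ∀ t : R ⊗[Qb] A0, j (algebraMap (R ⊗[Qb] A0) D t) =
      algebraMap (ℂ ⊗[Qb] A0) C (Algebra.TensorProduct.map ι (AlgHom.id Qb A0) t)

/-- Q4a. The family (`Q3`). Proof. `Q3` gives `R`, `ι`, `m`, `D`, `w`, `j₀ : D → C`. `B := ℂ ⊗ R`,
`R' := ℂ ⊗ (R ⊗ A0)` (`ℂ`-algebras through the left factor), `i : ℂ ⊗ A0 → R'`, `j : B → R'` the
obvious maps (`Algebra.TensorProduct.map`), and `(ℂ ⊗ A0) ⊗_ℂ (ℂ ⊗ R) ≃ R'` (both are
`ℂ ⊗ A0 ⊗ R`; e.g. `Algebra.TensorProduct.cancelBaseChange` and `comm`/`assoc`). `B` is smooth, and a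
domain since `Qb` is algebraically closed. Make `D` a `Qb`-algebra through `R ⊗ A0`;
`C' := ℂ ⊗[Qb] D`, an algebra over `R'` (`Algebra.TensorProduct.map`), finite étale by base change
(`C' = R' ⊗_{R ⊗ A0} D`). `w' := 1 ⊗ w`, `M := 1 ⊗ m`. `κ : C' → C`, `z ⊗ d ↦ z • j₀ d`, `y₀ : B → ℂ`,
`z ⊗ r ↦ z * ι r`. `M` is not a constant: otherwise `1 ⊗ m = c ⊗ 1` in `ℂ ⊗ R`, so `m ∈ Qb` (if
`1, m` were linearly independent over `Qb`, so would be `1 ⊗ 1`, `1 ⊗ m` over `ℂ`), and then
`μ = ι m` would be algebraic. -/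
def S_Q4a : Prop := ∀ (μ : ℂ) (_ : Transcendental ℚ μ) (A0 : Type) [CommRing A0]
  [Algebra Qb A0] (C : Type) [CommRing C] [Algebra ℂ C] [Algebra (ℂ ⊗[Qb] A0) C]
  [IsScalarTower ℂ (ℂ ⊗[Qb] A0) C] [Algebra.Etale (ℂ ⊗[Qb] A0) C]
  [Module.Finite (ℂ ⊗[Qb] A0) C] (u : C) (_ : IsUnit u)
  (_ : IsUnit (u - 1)) (_ : IsUnit (u - algebraMap ℂ C μ)),
  ∃ (B R' C' : Type) (_ : CommRing B) (_ : CommRing R') (_ : CommRing C') (_ : Algebra ℂ B)
    (_ : Algebra ℂ R') (_ : Algebra ℂ C') (_ : Algebra R' C') (_ : IsScalarTower ℂ R' C')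
    (_ : IsDomain B) (_ : Algebra.Smooth ℂ B) (_ : Algebra.Etale R' C')
    (_ : Module.Finite R' C') (i : (ℂ ⊗[Qb] A0) →ₐ[ℂ] R') (j : B →ₐ[ℂ] R')
    (_ : Function.Bijective (Algebra.TensorProduct.lift i j (fun _ _ => Commute.all _ _) :
      (ℂ ⊗[Qb] A0) ⊗[ℂ] B →ₐ[ℂ] R')) (w : C') (M : B) (_ : IsUnit w) (_ : IsUnit (w - 1))
    (_ : IsUnit (w - algebraMap R' C' (j M))) (_ : ∀ c : ℂ, M ≠ algebraMap ℂ B c)
    (κ : C' →ₐ[ℂ] C) (y₀ : Sp B) (_ : κ w = u) (_ : y₀.hom M = μ)
    (_ : ∀ a, κ (algebraMap R' C' (i a)) = algebraMap (ℂ ⊗[Qb] A0) C a),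
    ∀ b, κ (algebraMap R' C' (j b)) = algebraMap ℂ C (y₀.hom b)

/-- Q4. Rigidity, affine form (`Q4a`, `P11`, `T3`). Proof. Take the data of `Q4a`. `ψ ↦ ψ ∘ κ`,
`Sp C → Sp C'`, is continuous, `ψ ∘ κ` lies above `(ψ|A, y₀)`, `A = ℂ ⊗ A0`, and
`(ψ ∘ κ)(w) = ψ u`. Put `χ₀ = ψ₀ ∘ κ`. `P11` for the units `w`, `w - 1`, `w - M` of `C'`, on a common
neighbourhood `N` of `χ₀`. `Sp C' → Sp R' ≃ Sp A × Sp B` is a local homeomorphism
(`isLocalHomeomorph_comap`, `sp_tensor_isOpenMap`), so for `ψ` near `ψ₀` and `y'` near `y₀` there are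
points `χ` (above `(ψ|A, y')`), `χ₂` (above `(ψ₀|A, y')`) of `N`, and `χ₁ = ψ ∘ κ`. With
`p = χ₁ w = ψ u`, `q = χ₂ w`, `H = χ w`, `c = χ₀ w = ψ₀ u` (`c ≠ 0, 1`), `M' = y' M`, `μ = y₀ M`:
`H c = p q`, `(H-1)(c-1) = (p-1)(q-1)`, so `H + c = p + q` and `(p - c)(q - c) = 0`; and
`(H - M')(c - μ) = (p - μ)(q - M')`. If `p ≠ c` then `q = c`, `H = p` and
`(p - M')(c - μ) = (p - μ)(c - M')`, that is `(p - c)(M' - μ) = 0`, so `y' M = μ`. So if `ψ u ≠ ψ₀ u`
for one `ψ` near `ψ₀`, then `M - μ` vanishes near `y₀`, so `M = μ` by `T3` (`B` a smooth domain),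
contradiction with `Q4a`. -/
def S_Q4 : Prop := ∀ (μ : ℂ) (_ : Transcendental ℚ μ) (A0 : Type) [CommRing A0] [Algebra Qb A0]
  [Algebra.Smooth Qb A0] (C : Type) [CommRing C] [Algebra ℂ C] [Algebra (ℂ ⊗[Qb] A0) C]
  [IsScalarTower ℂ (ℂ ⊗[Qb] A0) C] [Algebra.Etale (ℂ ⊗[Qb] A0) C]
  [Module.Finite (ℂ ⊗[Qb] A0) C] (u : C) (_ : IsUnit u)
  (_ : IsUnit (u - 1)) (_ : IsUnit (u - algebraMap ℂ C μ)) (ψ₀ : Sp C),
  ∀ᶠ ψ in 𝓝 ψ₀, ψ.hom u = ψ₀.hom u

/-- Q5. Rigidity (`Q1`, `Q4`, `P13`, `T1`). Proof. Chart `A0` at `x` (`Q1`), the chart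
`specOver C ⟶ Z` above it (`exists_cover_chart` with `A := ℂ ⊗ A0`), the restriction of `u` to `C`;
the three units by `P13`; `Q4`: the function is constant near the point `z`; so the pull-back of `g`
to `z` is constant and `T1` (covering `cover_main`) gives that `g` is constant. -/
def S_Q5 : Prop := ∀ (μ : ℂ) (_ : Transcendental ℚ μ) (V : Over SpecQb), Smooth V.hom →
  ∀ (X : Over SpecC) (_ : X ≅ baseC V) (x : Pt X) (g : G x), IsBr μ X x g → Cst g

/-! ### Group F: functors -/

/-- F1. The topological fundamental groupoid functor is `π₁`-like. Proof: as `piGood` in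
`Pool.Agent.W481.Functor`, without the sequences: `PHmap` lemmas of `Pool.Agent.W481.Paths`,
`PH_prod_bijective`, `prod_homeo`, `conn_main`, `cover_main`, `PH_lift_exists`, `PH_lift_unique`. -/
def S_F1 : Prop := ∃ (π : Pi1Like) (h : ∀ X x y, π.Hom X x y = PH x y),
  (∀ X x, cast (h X x x) (π.refl x) = .refl x) ∧
  (∀ X x y z (p : π.Hom X x y) (q : π.Hom X y z), cast (h X x z) (π.trans p q) =
    (cast (h X x y) p).trans (cast (h X y z) q)) ∧
  ∀ (X Y : CVar) (f : X.sch ⟶ Y.sch) (x y : Pt X.sch) (x' y' : Pt Y.sch) (hx : x.push f = x')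
    (hy : y.push f = y') (p : π.Hom X x y), cast (h Y x' y') (π.map f hx hy p) =
      PHmap (pushC f) hx hy (cast (h X x y) p)

/-- The push-forward of functions on the sets of a system. -/
noncomputable def LS.pf (L : LS) (A : Type) [AddCommGroup A] {X Y : CVar} (f : X.sch ⟶ Y.sch)
    {x : Pt X.sch} {x' : Pt Y.sch} (hx : pushC f x = x') (e : L.N X x → A) : L.N Y x' → A :=
  fun g => (L.pb f hx g).elim 0 e

/-- F2. The functor of a system: `Hom X x y = PH x y × (N X x → A)` with
`(p, e)(q, e') = (pq, e + e' ∘ tr p)`, `f_*(p, e) = (f_* p, pf e)`. Proof: the first components as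
in `F1` (prove both jobs with the same lemmas; `conn_main` gives connectedness), the second
components from the fields of `LS`; inverse of `(p, e)`: `(p⁻¹, -(e ∘ tr p⁻¹))`. The product property:
`pf` along `p` and `q` is restriction to the two summands. Lifting: first component unique lift
(`PH_lift_unique`), second component: `pf f` is bijective by `lifting`. Terminal: one class of
paths (`Pt P` has one point) and `N` empty. -/
def S_F2 : Prop := ∀ (L : LS) (A : Type) [AddCommGroup A], ∃ π : Pi1Like,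
  ∃ e : ∀ (X : CVar) (x y : Pt X.sch), π.Hom X x y ≃ PH x y × (L.N X x → A),
  (∀ X x, e X x x (π.refl x) = (.refl x, 0)) ∧
  (∀ X x y z (p : π.Hom X x y) (q : π.Hom X y z), e X x z (π.trans p q) =
    ((e X x y p).1.trans (e X y z q).1,
      fun g => (e X x y p).2 g + (e X y z q).2 (L.tr (e X x y p).1 g))) ∧
  ∀ (X Y : CVar) (f : X.sch ⟶ Y.sch) (x y : Pt X.sch) (x' y' : Pt Y.sch) (hx : x.push f = x')
    (hy : y.push f = y') (p : π.Hom X x y), e Y x' y' (π.map f hx hy p) =
      (PHmap (pushC f) hx hy (e X x y p).1, L.pf A f hx (e X x y p).2)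

/-- F3. Transport of structure: the sets of morphisms of a `π₁`-like functor may be replaced by
sets in bijection with them. -/
def S_F3 : Prop := ∀ (π : Pi1Like) (H : ∀ X : CVar, Pt X.sch → Pt X.sch → Type)
  (e : ∀ (X : CVar) (x y : Pt X.sch), H X x y ≃ π.Hom X x y),
  ∃ (π' : Pi1Like) (h : ∀ X x y, π'.Hom X x y = H X x y),
  (∀ X x, e X x x (cast (h X x x) (π'.refl x)) = π.refl x) ∧
  (∀ X x y z (p : π'.Hom X x y) (q : π'.Hom X y z), e X x z (cast (h X x z) (π'.trans p q)) =
    π.trans (e X x y (cast (h X x y) p)) (e X y z (cast (h X y z) q))) ∧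
  ∀ (X Y : CVar) (f : X.sch ⟶ Y.sch) (x y : Pt X.sch) (x' y' : Pt Y.sch) (hx : x.push f = x')
    (hy : y.push f = y') (p : π'.Hom X x y), e Y x' y' (cast (h Y x' y') (π'.map f hx hy p)) =
      π.map f hx hy (e X x y (cast (h X x y) p))

/-- F4. The system of nonconstant branches (`T1`, `T5`, `T6`, `T7a`, `T7b`, `T8`, `T10`, `T11`,
`P16`). Proof. `tr p g` := the `g'` with `Tr p g g'` (`T5`, unique by `T6`, nonconstant by `T8`
applied to `p.symm` and `T11`). `pb f hx g` := `some (gp f g)` if this germ is not constant, `none`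
otherwise. `pb_tr` from `T7b`, `T6` and `T8` (constancy of `gp f g` is preserved in both directions by
continuation). `lifting`: `gp f` is a bijection of germs (`T1`), branches to branches (`T7a`, `T10`),
constants to constants. `terminal`: `Pt P` has one point, every germ is constant. -/
def S_F4 : Prop := ∀ μ : ℂ, ∃ (L : LS) (h : ∀ X x, L.N X x = NB μ X.sch x),
  ∀ (X Y : CVar) (f : X.sch ⟶ Y.sch) (x : Pt X.sch) (x' : Pt Y.sch) (hx : pushC f x = x')
    (g : L.N Y x'), (∀ k, L.pb f hx g = some k → (cast (h X x) k).1 =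
      gp (pushC f) hx (cast (h Y x') g).1)

/-- F5. The test variety `Spec ℂ[t, 1/(t(t-1)(t-ν))]` is smooth and quasi-projective. Proof: an open
subscheme of `Gm` (`Pool.Agent.W481.Gm`: localisation of `GmRing`, `Localization.Away` of a product)
and `Gm` is quasi-projective; composition of an open immersion and an immersion. Smooth:
localisation of `ℂ[t]`, `smooth_specOver`. -/
def S_F5 : Prop := ∀ ν : ℂ, ∃ X : CVar, X.sch = specOver (RR ν)

/-- F6. A conjugate of a test variety has a nonconstant branch (`T2`). Proof. `σ : ℂ ≃+* ℂ`,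
`ν = σ⁻¹ μ`, `X.sch = specOver (RR ν)`; on the conjugate (same underlying scheme) take the identity
cover and the regular function `u = glob t`; the complex points of the conjugate are the
`conjPt σ x` (bijection) and `vf u (conjPt σ x) = σ (vf t x)` (see `value_gmTσ` in
`Pool.Agent.W481.Main`), which is not `0`, `1`, `μ` because `t x ∉ {0, 1, ν}`. The germ at
`conjPt σ x` is not constant: the conjugate is smooth and connected, `conn_main` gives a class of
paths to any other point, so by `T2` (and a constant section) `u` would be constant, but `t` takes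
infinitely many values on `Pt (specOver (RR ν))`. -/
def S_F6 : Prop := ∀ (μ : ℂ) (σ : ℂ ≃+* ℂ) (X : CVar), X.sch = specOver (RR (σ.symm μ)) →
  Nonempty (Pt X.sch) ∧ ∀ x : Pt X.sch, Nonempty (NB μ (X.conj σ).sch (conjPt σ x))

/-- F7. The result (`F2`, `F3`, `F4`, `F5`, `F6`, `Q5`). Proof. `μ` transcendental, `L` of `F4`,
`A := T → ZMod 2` with `T := Σ (ν : ℂ) (x : Pt (specOver (RR ν))), PH x x`. `F2` gives `π₀`; `F3` with
`H X x y := if OverQb X then PH x y else π₀.Hom X x y` and, for `OverQb X`, the bijection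
`π₀.Hom X x y ≃ PH x y × (N → A) ≃ PH x y`, as `N` is empty by `Q5`. `AgreesOn`: for `X`, `Y` over
`Qb`. Not isomorphic: for `σ`, `X` the test variety of `ν = σ⁻¹ μ` and a point `x`, the bijection
`PH x x → π.Hom (X^σ) (x^σ) (x^σ) ≃ PH × (N → A)` with `N` nonempty gives a surjection of `PH x x`
onto `A` (evaluate at an element of `N`), so a surjection `T → (T → ZMod 2)`, contradiction with
Cantor's theorem. -/
def S_F7 : Prop := ∃ π : Pi1Like, AgreesOn π OverQb ∧ ∀ σ : ℂ ≃+* ℂ, IsEmpty (TopIso π σ)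

end Pool.Agent.Q37.GU
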