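import Pool.Agent.W481.Functor

/-!
Project GU (MP_8178ab_ag), definitions.

Varieties, complex points, `π₁`-like functors: the library `Pool.Agent.W481`.

* `Qb` is the field of algebraic numbers in `ℂ`, `OverQb X` says that the variety `X` has a model
  over `Qb`, `AgreesOn π Q` says that `π` is literally the topological fundamental groupoid functor
  on the full subcategory of the varieties with the property `Q`.
* A branch at `x ∈ X(ℂ)` is a germ at `x` of a function which becomes, on some finite étale cover
  `Z → X`, the germ of a regular function on `Z` which omits the values `0`, `1`, `μ`.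
-/

open CategoryTheory CategoryTheory.Limits AlgebraicGeometry Topology
open scoped TensorProduct

namespace Pool.Agent.Q37.GU

open Pool.Agent.W481

/-- The field of algebraic numbers in `ℂ`. -/
abbrev Qb : Type := algebraicClosure ℚ ℂ

/-- The spectrum of the field of algebraic numbers. -/
noncomputable abbrev SpecQb : Scheme.{0} := Spec (.of Qb)

/-- The morphism `Spec ℂ ⟶ Spec Qb`. -/
noncomputable abbrev toSpecQb : SpecC ⟶ SpecQb :=
  Spec.map (CommRingCat.ofHom (algebraMap Qb ℂ))

/-- The complex scheme defined by a scheme over the field of algebraic numbers. -/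
noncomputable def baseC (V : Over SpecQb) : Over SpecC :=
  Over.mk (pullback.snd V.hom toSpecQb)

/-- The variety `X` is defined over the field of algebraic numbers. -/
def OverQb (X : CVar) : Prop :=
  ∃ V : Over SpecQb, Smooth V.hom ∧ Nonempty (X.sch ≅ baseC V)

/-- `π(X) = π₁^top(X)` and `π(f) = π₁^top(f)` for all varieties with the property `Q` and all
morphisms of complex varieties between them. -/
structure AgreesOn (π : Pi1Like) (Q : CVar → Prop) : Prop where
  /-- the sets of morphisms of the groupoids are equal -/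
  hom_eq : ∀ X, Q X → ∀ x y : Pt X.sch, π.Hom X x y = PH x y
  /-- the identities are equal -/
  refl : ∀ X (h : Q X) (x : Pt X.sch), cast (hom_eq X h x x) (π.refl x) = .refl x
  /-- the compositions are equal -/
  trans : ∀ X (h : Q X) (x y z : Pt X.sch) (p : π.Hom X x y) (q : π.Hom X y z),
    cast (hom_eq X h x z) (π.trans p q) =
      (cast (hom_eq X h x y) p).trans (cast (hom_eq X h y z) q)
  /-- the maps induced by morphisms are equal -/
  map : ∀ X Y (hX : Q X) (hY : Q Y) (f : X.sch ⟶ Y.sch) (x y : Pt X.sch) (p : π.Hom X x y),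
    cast (hom_eq Y hY (x.push f) (y.push f)) (π.map f rfl rfl p) =
      (cast (hom_eq X hX x y) p).map (pushC f)

/-- A natural isomorphism from the topological fundamental groupoid functor to the twist `π^σ`
which is the identity on complex points. -/
structure TopIso (π : Pi1Like) (σ : ℂ ≃+* ℂ) extends TopNat π σ where
  /-- the components are bijective on morphisms -/
  bij : ∀ (X : CVar) (x y : Pt X.sch), Function.Bijective (app X : PH x y → _)

/-! ### Germs -/

section germs

variable {T S R : Type} [TopologicalSpace T] [TopologicalSpace S] [TopologicalSpace R]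

/-- The germs at `x` of complex valued functions. -/
abbrev G (x : T) : Type := Filter.Germ (𝓝 x) ℂ

/-- The germ of a function. -/
def gm (u : T → ℂ) (x : T) : G x := (u : Filter.Germ (𝓝 x) ℂ)

/-- The pull-back of a germ along a continuous map. -/
def gp (f : C(T, S)) {x : T} {x' : S} (hx : f x = x') (g : G x') : G x :=
  g.compTendsto f (hx ▸ f.continuous.continuousAt)

/-- The germ is constant. -/
def Cst {x : T} (g : G x) : Prop := ∃ c : ℂ, g = gm (fun _ => c) x

end germs

/-- The function on complex points defined by a regular function. -/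
noncomputable def vf {X : Over SpecC} (u : Γ(X.left, ⊤)) : C(Pt X, ℂ) :=
  ⟨fun x => x.value (mem_top x) u, continuous_value u⟩

/-- The complex numbers different from `0`, `1`, `μ`. -/
def Om (μ : ℂ) : Set ℂ := {z | z ≠ 0 ∧ z ≠ 1 ∧ z ≠ μ}

/-- The germ `g` at `x` is a branch. -/
def IsBr (μ : ℂ) (X : Over SpecC) (x : Pt X) (g : G x) : Prop :=
  ∃ (Z : Over SpecC) (f : Z ⟶ X) (_ : Etale f.left) (_ : IsFinite f.left)
    (u : Γ(Z.left, ⊤)) (_ : ∀ z : Pt Z, vf u z ∈ Om μ) (z : Pt Z) (hz : pushC f z = x),
    gp (pushC f) hz g = gm (vf u) z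

/-- The branch `g'` at `y` is the continuation of the branch `g` at `x` along `γ`. -/
def Tr (μ : ℂ) (X : Over SpecC) {x y : Pt X} (γ : PH x y) (g : G x) (g' : G y) : Prop :=
  ∃ (Z : Over SpecC) (f : Z ⟶ X) (_ : Etale f.left) (_ : IsFinite f.left)
    (u : Γ(Z.left, ⊤)) (_ : ∀ z : Pt Z, vf u z ∈ Om μ) (z w : Pt Z) (hz : pushC f z = x)
    (hw : pushC f w = y) (q : PH z w), PHmap (pushC f) hz hw q = γ ∧
    gp (pushC f) hz g = gm (vf u) z ∧ gp (pushC f) hw g' = gm (vf u) w

/-- The nonconstant branches at `x`. -/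
def NB (μ : ℂ) (X : Over SpecC) (x : Pt X) : Type := {g : G x // IsBr μ X x g ∧ ¬ Cst g}

/-- A system of sets on the points of all varieties, with transport along classes of paths, pull-back
defined on a part, and the properties which make `π₁^top ⋉ (functions on it)` a `π₁`-like functor. -/
structure LS where
  /-- the set attached to a point -/
  N : (X : CVar) → Pt X.sch → Type
  /-- transport -/
  tr {X : CVar} {x y : Pt X.sch} : PH x y → N X x → N X y
  tr_refl {X : CVar} (x : Pt X.sch) (g : N X x) : tr (.refl x) g = g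
  tr_trans {X : CVar} {x y z : Pt X.sch} (p : PH x y) (q : PH y z) (g : N X x) :
    tr (p.trans q) g = tr q (tr p g)
  /-- pull-back defined on a part -/
  pb {X Y : CVar} (f : X.sch ⟶ Y.sch) {x : Pt X.sch} {x' : Pt Y.sch} (hx : pushC f x = x') :
    N Y x' → Option (N X x)
  pb_id {X : CVar} {x : Pt X.sch} (hx : pushC (𝟙 X.sch) x = x) (g : N X x) :
    pb (𝟙 X.sch) hx g = some g
  pb_comp {X Y Z : CVar} (f : X.sch ⟶ Y.sch) (h : Y.sch ⟶ Z.sch) {x : Pt X.sch}
    {x' : Pt Y.sch} {x'' : Pt Z.sch} (hx : pushC f x = x') (hx' : pushC h x' = x'')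
    (hx'' : pushC (f ≫ h) x = x'') (g : N Z x'') :
    pb (f ≫ h) hx'' g = (pb h hx' g).bind (pb f hx)
  pb_tr {X Y : CVar} (f : X.sch ⟶ Y.sch) {x y : Pt X.sch} {x' y' : Pt Y.sch}
    (hx : pushC f x = x') (hy : pushC f y = y') (p : PH x y) (g : N Y x') :
    pb f hy (tr (PHmap (pushC f) hx hy p) g) = (pb f hx g).map (tr p)
  prod {X Y P : CVar} (p : P.sch ⟶ X.sch) (q : P.sch ⟶ Y.sch)
    (hP : Nonempty (IsLimit (BinaryFan.mk p q))) (a : Pt P.sch) :
    ∃ e : N X (pushC p a) ⊕ N Y (pushC q a) ≃ N P a,
      (∀ g, pb p rfl g = some (e (Sum.inl g))) ∧ ∀ g, pb q rfl g = some (e (Sum.inr g))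
  terminal {P : CVar} (hP : Nonempty (IsTerminal P.sch)) (a : Pt P.sch) : IsEmpty (N P a)
  lifting {X Y : CVar} (f : X.sch ⟶ Y.sch) (hf : Etale f.left) (hf' : IsFinite f.left)
    (x : Pt X.sch) : ∃ e : N Y (pushC f x) ≃ N X x, ∀ g, pb f rfl g = some (e g)

/-! ### The test varieties -/

/-- `ℂ[t]` with `t (t - 1) (t - ν)` inverted. -/
abbrev RR (ν : ℂ) : Type := Localization.Away
  (Polynomial.X * (Polynomial.X - 1) * (Polynomial.X - Polynomial.C ν) : Polynomial ℂ)

/-- The coordinate. -/
noncomputable def RR.t (ν : ℂ) : RR ν := algebraMap (Polynomial ℂ) (RR ν) Polynomial.X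

end Pool.Agent.Q37.GU
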