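import Pool.Agent.Q37.GU.Stm
import Pool.Agent.Q37.GU.Basic

/-!
Project GU, job F2: the functor of a system.
-/

open CategoryTheory CategoryTheory.Limits AlgebraicGeometry Topology

namespace Pool.Agent.Q37.GU

open Pool.Agent.W481

variable (L : LS) (A : Type) [AddCommGroup A]

theorem LS.tr_symm_tr {X : CVar} {x y : Pt X.sch} (p : PH x y) (g : L.N X y) :
    L.tr p (L.tr p.symm g) = g := by
  rw [← L.tr_trans, PH_symm_trans, L.tr_refl]

theorem LS.tr_tr_symm {X : CVar} {x y : Pt X.sch} (p : PH x y) (g : L.N X x) :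
    L.tr p.symm (L.tr p g) = g := by
  rw [← L.tr_trans, PH_trans_symm, L.tr_refl]

theorem Option.elim_map' {α β γ : Type} (o : Option α) (f : α → β) (z : γ) (e : β → γ) :
    (o.map f).elim z e = o.elim z (fun a => e (f a)) := by
  cases o <;> rfl

/-- The functor. -/
noncomputable def LS.pi : Pi1Like where
  Hom X x y := PH x y × (L.N X x → A)
  refl x := (.refl x, 0)
  trans p q := (p.1.trans q.1, fun g => p.2 g + q.2 (L.tr p.1 g))
  symm p := (p.1.symm, fun g => - p.2 (L.tr p.1.symm g))
  refl_trans := by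
    intro X x y p
    refine Prod.ext (PH_refl_trans _) ?_
    funext g
    show 0 + p.2 (L.tr (.refl x) g) = p.2 g
    rw [L.tr_refl, zero_add]
  trans_refl := by
    intro X x y p
    refine Prod.ext (PH_trans_refl _) ?_
    funext g
    show p.2 g + 0 = p.2 g
    rw [add_zero]
  trans_assoc := by
    intro X x y z w p q r
    refine Prod.ext (PH_assoc _ _ _) ?_
    funext g
    show p.2 g + q.2 (L.tr p.1 g) + r.2 (L.tr (p.1.trans q.1) g) =
      p.2 g + (q.2 (L.tr p.1 g) + r.2 (L.tr q.1 (L.tr p.1 g)))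
    rw [L.tr_trans, add_assoc]
  trans_symm := by
    intro X x y p
    refine Prod.ext (PH_trans_symm _) ?_
    funext g
    show p.2 g + - p.2 (L.tr p.1.symm (L.tr p.1 g)) = 0
    rw [L.tr_tr_symm, add_neg_cancel]
  symm_trans := by
    intro X x y p
    refine Prod.ext (PH_symm_trans _) ?_
    funext g
    show - p.2 (L.tr p.1.symm g) + p.2 (L.tr p.1.symm g) = 0
    rw [neg_add_cancel]
  map {_ _} f {_ _ _ _} hx hy p := (PHmap (pushC f) hx hy p.1, L.pf A f hx p.2)
  map_refl := by
    intro X Y f x x' hx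
    refine Prod.ext (PHmap_refl (pushC f) hx) ?_
    funext g
    show (L.pb f hx g).elim 0 (fun _ => (0 : A)) = 0
    cases L.pb f hx g <;> rfl
  map_trans := by
    intro X Y f x y z x' y' z' hx hy hz p q
    refine Prod.ext (PHmap_trans (pushC f) hx hy hz p.1 q.1) ?_
    funext g
    show (L.pb f hx g).elim 0 (fun k => p.2 k + q.2 (L.tr p.1 k)) =
      (L.pb f hx g).elim 0 p.2 + (L.pb f hy (L.tr (PHmap (pushC f) hx hy p.1) g)).elim 0 q.2
    rw [L.pb_tr f hx hy p.1 g, Option.elim_map']
    cases L.pb f hx g with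
    | none => exact (add_zero (0 : A)).symm
    | some k => rfl
  map_id := by
    intro X x y hx hy p
    refine Prod.ext ((PHmap_congr (pushC_id X.sch) hx hy p.1).trans (PHmap_id _)) ?_
    funext g
    show (L.pb (𝟙 X.sch) hx g).elim 0 p.2 = p.2 g
    rw [L.pb_id hx g]
    rfl
  map_comp := by
    intro X Y Z f g x y x' y' x'' y'' hx hy hx' hy' hx'' hy'' p
    refine Prod.ext ((PHmap_congr (pushC_comp f g).symm hx'' hy'' p.1).trans
      (PHmap_comp (pushC f) (pushC g) hx hy hx' hy' p.1).symm) ?_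
    funext k
    show (L.pb (f ≫ g) hx'' k).elim 0 p.2 =
      (L.pb g hx' k).elim 0 (fun k => (L.pb f hx k).elim 0 p.2)
    rw [L.pb_comp f g hx hx' hx'' k]
    cases L.pb g hx' k <;> rfl
  prod := by
    rintro X Y P p q ⟨hP⟩ a b
    obtain ⟨e, he1, he2⟩ := L.prod p q ⟨hP⟩ a
    have hb := PH_prod_bijective (pushC p) (pushC q) (prod_homeo p q hP) a b
    have k1 : ∀ (s : L.N P a → A) (g : L.N X (pushC p a)),
        L.pf A p (x := a) (x' := pushC p a) rfl s g = s (e (Sum.inl g)) := by
      intro s g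
      show (L.pb p rfl g).elim 0 s = _
      rw [he1]
      rfl
    have k2 : ∀ (s : L.N P a → A) (g : L.N Y (pushC q a)),
        L.pf A q (x := a) (x' := pushC q a) rfl s g = s (e (Sum.inr g)) := by
      intro s g
      show (L.pb q rfl g).elim 0 s = _
      rw [he2]
      rfl
    constructor
    · rintro ⟨r, s⟩ ⟨r', s'⟩ h
      have h1 : ((PHmap (pushC p) rfl rfl r : PH (pushC p a) (pushC p b)),
        L.pf A p (x := a) (x' := pushC p a) rfl s) = (PHmap (pushC p) rfl rfl r',
        L.pf A p (x := a) (x' := pushC p a) rfl s') := congrArg Prod.fst h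
      have h2 : ((PHmap (pushC q) rfl rfl r : PH (pushC q a) (pushC q b)),
        L.pf A q (x := a) (x' := pushC q a) rfl s) = (PHmap (pushC q) rfl rfl r',
        L.pf A q (x := a) (x' := pushC q a) rfl s') := congrArg Prod.snd h
      have h11 := (Prod.ext_iff.1 h1).1
      have h21 := (Prod.ext_iff.1 h2).1
      have h12 := (Prod.ext_iff.1 h1).2
      have h22 := (Prod.ext_iff.1 h2).2
      have h3 : r = r' := hb.1 (Prod.ext h11 h21)
      have h4 : s = s' := by
        funext k
        obtain ⟨k', rfl⟩ := e.surjective k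
        rcases k' with g | g
        · exact (k1 s g).symm.trans ((congrFun h12 g).trans (k1 s' g))
        · exact (k2 s g).symm.trans ((congrFun h22 g).trans (k2 s' g))
      rw [h3, h4]
    · rintro ⟨⟨α, s1⟩, ⟨β, s2⟩⟩
      obtain ⟨r, hr⟩ := hb.2 (α, β)
      refine ⟨(r, fun k => Sum.elim s1 s2 (e.symm k)), ?_⟩
      have hr1 : (PHmap (pushC p) rfl rfl r : PH (pushC p a) (pushC p b)) = α :=
        congrArg Prod.fst hr
      have hr2 : (PHmap (pushC q) rfl rfl r : PH (pushC q a) (pushC q b)) = β :=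
        congrArg Prod.snd hr
      refine Prod.ext (Prod.ext hr1 ?_) (Prod.ext hr2 ?_)
      · funext g
        refine (k1 _ g).trans ?_
        exact congrArg (Sum.elim s1 s2) (e.symm_apply_apply (Sum.inl g))
      · funext g
        refine (k2 _ g).trans ?_
        exact congrArg (Sum.elim s1 s2) (e.symm_apply_apply (Sum.inr g))
  terminal := by
    rintro P ⟨hP⟩ a b
    have hs : Subsingleton (Pt P.sch) := ⟨fun a b => hP.hom_ext a b⟩
    have hN := L.terminal ⟨hP⟩ a
    obtain rfl : a = b := Subsingleton.elim _ _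
    refine ⟨⟨(.refl a, 0)⟩, ⟨?_⟩⟩
    rintro ⟨p, s⟩ ⟨q, s'⟩
    refine Prod.ext ?_ (funext fun k => (hN.false k).elim)
    show p = q
    induction p using Path.Homotopic.Quotient.ind with | mk p'
    induction q using Path.Homotopic.Quotient.ind with | mk q'
    congr 1
    ext t
    exact Subsingleton.elim _ _
  connected := by
    intro X hX x y
    obtain ⟨p, -⟩ := conn_main X.sch X.smooth hX x y
    exact ⟨(p 0, 0)⟩
  lifting := by
    rintro X Y f hf hf' x y ⟨p, s⟩
    obtain ⟨hc, -⟩ := cover_main f hf hf'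
    obtain ⟨e, he⟩ := L.lifting f hf hf' x
    obtain ⟨w, hw, r, hr⟩ := PH_lift_exists (pushC f) hc (e := x) rfl p
    have k1 : ∀ (s : L.N X x → A) (g : L.N Y (pushC f x)),
        L.pf A f (x := x) (x' := pushC f x) rfl s g = s (e g) := by
      intro s g
      show (L.pb f rfl g).elim 0 s = _
      rw [he]
      rfl
    refine ⟨⟨w, (r, fun k => s (e.symm k))⟩, ⟨hw, ?_⟩, ?_⟩
    · refine Prod.ext hr ?_
      funext g
      refine (k1 _ g).trans ?_
      exact congrArg s (e.symm_apply_apply g)
    · rintro ⟨w', ⟨r', s'⟩⟩ ⟨hw', h⟩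
      have h1 : PHmap (pushC f) rfl hw' r' = p := congrArg Prod.fst h
      have h2 : L.pf A f (x := x) (x' := pushC f x) rfl s' = s := congrArg Prod.snd h
      have h3 := PH_lift_unique (pushC f) hc rfl hw' hw r' r (h1.trans hr.symm)
      have h4 : w' = w := congrArg Sigma.fst h3
      subst h4
      have h5 : r' = r := eq_of_heq (Sigma.mk.inj_iff.1 h3).2
      subst h5
      have h6 : s' = fun k => s (e.symm k) := by
        funext k
        rw [← h2, k1, e.apply_symm_apply]
      rw [h6]

theorem f2 : S_F2 := fun L A _ =>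
  ⟨L.pi A, fun _ _ _ => Equiv.refl _, fun _ _ => rfl, fun _ _ _ _ _ _ => rfl,
    fun _ _ _ _ _ _ _ _ _ _ => rfl⟩

end Pool.Agent.Q37.GU
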