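import Pool.Agent.Q37.GU.Stm
import Pool.Agent.Q37.GU.Basic

/-!
Project GU, job F3: transport of structure.
-/

open CategoryTheory CategoryTheory.Limits AlgebraicGeometry Topology

namespace Pool.Agent.Q37.GU

open Pool.Agent.W481

variable (π : Pi1Like) (H : ∀ X : CVar, Pt X.sch → Pt X.sch → Type)
  (e : ∀ (X : CVar) (x y : Pt X.sch), H X x y ≃ π.Hom X x y)

/-- The functor with other sets of morphisms. -/
noncomputable def transp : Pi1Like where
  Hom := H
  refl {X} x := (e X x x).symm (π.refl x)
  trans {X x y z} p q := (e X x z).symm (π.trans (e X x y p) (e X y z q))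
  symm {X x y} p := (e X y x).symm (π.symm (e X x y p))
  refl_trans := by
    intro X x y p
    simp [π.refl_trans]
  trans_refl := by
    intro X x y p
    simp [π.trans_refl]
  trans_assoc := by
    intro X x y z w p q r
    simp [π.trans_assoc]
  trans_symm := by
    intro X x y p
    simp [π.trans_symm]
  symm_trans := by
    intro X x y p
    simp [π.symm_trans]
  map {X Y} f {x y x' y'} hx hy p := (e Y x' y').symm (π.map f hx hy (e X x y p))
  map_refl := by
    intro X Y f x x' hx
    simp [π.map_refl f hx]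
  map_trans := by
    intro X Y f x y z x' y' z' hx hy hz p q
    simp [π.map_trans f hx hy hz]
  map_id := by
    intro X x y hx hy p
    simp [π.map_id hx hy]
  map_comp := by
    intro X Y Z f g x y x' y' x'' y'' hx hy hx' hy' hx'' hy'' p
    simp [π.map_comp f g hx hy hx' hy' hx'' hy'']
  prod := by
    intro X Y P p q hP a b
    have h := π.prod p q hP a b
    have h1 := (((e X _ _).symm.bijective.prodMap (e Y _ _).symm.bijective).comp h).comp
      (e P a b).bijective
    exact h1
  terminal := by
    intro P hP a b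
    obtain ⟨⟨p⟩, hs⟩ := π.terminal hP a b
    exact ⟨⟨(e P a b).symm p⟩, (e P a b).injective.subsingleton⟩
  connected := by
    intro X hX x y
    obtain ⟨p⟩ := π.connected hX x y
    exact ⟨(e X x y).symm p⟩
  lifting := by
    intro X Y f hf hf' x y γ
    obtain ⟨⟨z, p⟩, ⟨h, hp⟩, huniq⟩ := π.lifting f hf hf' x y (e Y _ _ γ)
    refine ⟨⟨z, (e X x z).symm p⟩, ⟨h, ?_⟩, ?_⟩
    · simp only [Equiv.apply_symm_apply]
      rw [hp, Equiv.symm_apply_apply]
    · rintro ⟨z', p'⟩ ⟨h', hp'⟩
      have h1 := huniq ⟨z', e X x z' p'⟩ ⟨h', by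
        rw [← hp']
        simp⟩
      obtain rfl : z' = z := congrArg Sigma.fst h1
      have h2 : e X x z' p' = p := eq_of_heq (Sigma.mk.inj_iff.1 h1).2
      rw [← h2, Equiv.symm_apply_apply]

theorem f3 : S_F3 := fun π H e =>
  ⟨transp π H e, fun _ _ _ => rfl, fun X x => (e X x x).apply_symm_apply _,
    fun X x _ z _ _ => (e X x z).apply_symm_apply _,
    fun _ Y _ _ _ x' y' _ _ _ => (e Y x' y').apply_symm_apply _⟩

end Pool.Agent.Q37.GU
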