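import Pool.Agent.Q37.GU.Stm
import Pool.Agent.Q37.GU.Basic
import Pool.Agent.W481.Gm

/-!
Project GU, job F5: the test varieties.
-/

open CategoryTheory CategoryTheory.Limits AlgebraicGeometry Topology

namespace Pool.Agent.Q37.GU

open Pool.Agent.W481

instance smooth_RR (ν : ℂ) : Algebra.Smooth ℂ (RR ν) := by
  have h1 : Algebra.Smooth ℂ (Polynomial ℂ) := ⟨inferInstance, inferInstance⟩
  have h2 : Algebra.Smooth (Polynomial ℂ) (RR ν) :=
    Algebra.Smooth.of_isLocalization_Away
      (Polynomial.X * (Polynomial.X - 1) * (Polynomial.X - Polynomial.C ν) : Polynomial ℂ)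
  exact Algebra.Smooth.comp ℂ (Polynomial ℂ) (RR ν)

theorem f5 : S_F5 := by
  intro ν
  let y : Polynomial ℂ := (Polynomial.X - 1) * (Polynomial.X - Polynomial.C ν)
  let T : Type := Localization.Away (algebraMap (Polynomial ℂ) GmRing y)
  have hT : IsLocalization.Away (Polynomial.X * y : Polynomial ℂ) T :=
    IsLocalization.Away.mul' GmRing T Polynomial.X y
  have hT' : IsLocalization.Away
      (Polynomial.X * (Polynomial.X - 1) * (Polynomial.X - Polynomial.C ν) : Polynomial ℂ) T := by
    have e : (Polynomial.X * (Polynomial.X - 1) * (Polynomial.X - Polynomial.C ν) :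
      Polynomial ℂ) = Polynomial.X * y := mul_assoc _ _ _
    rw [e]
    exact hT
  let E : T ≃ₐ[Polynomial ℂ] RR ν := IsLocalization.algEquiv (Submonoid.powers
    (Polynomial.X * (Polynomial.X - 1) * (Polynomial.X - Polynomial.C ν) : Polynomial ℂ)) T (RR ν)
  let f : GmRing →ₐ[ℂ] RR ν := (E.toAlgHom.restrictScalars ℂ).comp
    (IsScalarTower.toAlgHom ℂ GmRing T)
  let j : Spec (.of (RR ν)) ⟶ Spec (.of GmRing) := Spec.map (CommRingCat.ofHom f.toRingHom)
  let j1 : Spec (.of (RR ν)) ⟶ Spec (.of T) := Spec.map (CommRingCat.ofHom (E.toAlgHom.toRingHom))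
  let j2 : Spec (.of T) ⟶ Spec (.of GmRing) := Spec.map (CommRingCat.ofHom (algebraMap GmRing T))
  have h1 : IsOpenImmersion j2 :=
    (inferInstance : IsOpenImmersion (Spec.map (CommRingCat.ofHom (algebraMap GmRing
      (Localization.Away (algebraMap (Polynomial ℂ) GmRing y))))))
  have h2 : IsIso j1 := by
    have : IsIso (CommRingCat.ofHom (E.toAlgHom.toRingHom)) :=
      (E.toRingEquiv.toCommRingCatIso).isIso_hom
    exact (inferInstance : IsIso (Spec.map (CommRingCat.ofHom (E.toAlgHom.toRingHom))))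
  have e1 : j = j1 ≫ j2 := by
    show _ = Spec.map _ ≫ Spec.map _
    rw [← Spec.map_comp]
    rfl
  have hf : IsOpenImmersion j := by
    rw [e1]
    exact (inferInstance : IsOpenImmersion (j1 ≫ j2))
  obtain ⟨i, hi, hi2⟩ := exists_immersion_Gm
  have hji : IsImmersion (j ≫ i) := inferInstance
  refine ⟨⟨specOver (RR ν), smooth_specOver _, 1, j ≫ i, hji, ?_⟩, rfl⟩
  show (j ≫ i) ≫ _ = _
  rw [Category.assoc, hi2]
  exact Over.w (specMap f)

end Pool.Agent.Q37.GU
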