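import Pool.Agent.Q37.GU.F2
import Pool.Agent.Q37.GU.F3

/-!
Project GU, job F7: the result.
-/

open CategoryTheory CategoryTheory.Limits AlgebraicGeometry Topology

namespace Pool.Agent.Q37.GU

open Pool.Agent.W481

theorem exists_transcendental : ∃ μ : ℂ, Transcendental ℚ μ := by
  by_contra h
  push Not at h
  have h1 : {x : ℂ | IsAlgebraic ℚ x}.Countable := Algebraic.countable ℚ ℂ
  have h2 : {x : ℂ | IsAlgebraic ℚ x} = Set.univ := by
    ext x
    simp only [Set.mem_ofPred_eq, Set.mem_univ, iff_true]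
    by_contra hx
    exact h x hx
  rw [h2] at h1
  exact not_countable_complex h1

theorem no_surj (T P : Type) [Nonempty P] (i : P → T) (hi : Function.Injective i)
    (s : P → (T → ZMod 2)) (hs : Function.Surjective s) : False := by
  have h1 : Function.Surjective (fun t : T => {t' : T | s (Function.invFun i t) t' = 1}) := by
    intro U
    classical
    obtain ⟨p, hp⟩ := hs (fun t' => if t' ∈ U then 1 else 0)
    refine ⟨i p, ?_⟩
    ext t'
    simp only [Function.leftInverse_invFun hi p, hp, Set.mem_ofPred_eq]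
    by_cases h : t' ∈ U <;> simp [h]
  exact Function.cantor_surjective _ h1

section build

variable (L : LS) (A : Type) [AddCommGroup A] (hE : ∀ (X : CVar), OverQb X → ∀ x, IsEmpty (L.N X x))

open Classical in
/-- the sets of morphisms -/
noncomputable def HH (X : CVar) (x y : Pt X.sch) : Type :=
  if OverQb X then PH x y else PH x y × (L.N X x → A)

/-- the bijection for varieties over the algebraic numbers -/
noncomputable def ee0 {X : CVar} (h : OverQb X) (x y : Pt X.sch) :
    PH x y ≃ (L.pi A).Hom X x y where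
  toFun p := (p, 0)
  invFun p := p.1
  left_inv _ := rfl
  right_inv _ := Prod.ext rfl (funext fun k => ((hE X h x).false k).elim)

open Classical in
/-- the bijection -/
noncomputable def ee (X : CVar) (x y : Pt X.sch) : HH L A X x y ≃ (L.pi A).Hom X x y :=
  if h : OverQb X then (Equiv.cast (if_pos h)).trans (ee0 L A hE h x y)
  else Equiv.cast (if_neg h)

theorem ee_eq (X : CVar) (h : OverQb X) (x y : Pt X.sch) :
    ee L A hE X x y = (Equiv.cast (if_pos h)).trans (ee0 L A hE h x y) := dif_pos h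

theorem ee_fst (X : CVar) (h : OverQb X) (x y : Pt X.sch) (h' : HH L A X x y = PH x y)
    (p : HH L A X x y) : (ee L A hE X x y p).1 = cast h' p :=
  congrArg (fun E : HH L A X x y ≃ (L.pi A).Hom X x y => (E p).1) (ee_eq L A hE X h x y)

/-- the functor -/
noncomputable def thePi : Pi1Like := transp (L.pi A) (HH L A) (ee L A hE)

theorem thePi_agrees : AgreesOn (thePi L A hE) OverQb where
  hom_eq X h x y := if_pos h
  refl := by
    intro X h x
    refine (ee_fst L A hE X h x x _ _).symm.trans ?_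
    exact congrArg Prod.fst ((ee L A hE X x x).apply_symm_apply _)
  trans := by
    intro X h x y z p q
    refine (ee_fst L A hE X h x z _ _).symm.trans ?_
    refine (congrArg Prod.fst ((ee L A hE X x z).apply_symm_apply _)).trans ?_
    exact congrArg₂ (fun (a : PH x y) (b : PH y z) => a.trans b)
      (ee_fst L A hE X h x y (if_pos h) p) (ee_fst L A hE X h y z (if_pos h) q)
  map := by
    intro X Y hX hY f x y p
    refine (ee_fst L A hE Y hY _ _ _ _).symm.trans ?_
    refine (congrArg Prod.fst ((ee L A hE Y _ _).apply_symm_apply _)).trans ?_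
    refine (PHmap_rfl (pushC f) _).trans ?_
    exact congrArg (fun a : PH x y => a.map (pushC f)) (ee_fst L A hE X hX x y (if_pos hX) p)

end build

theorem f7 (h4 : S_F4) (h5 : S_F5) (h6 : S_F6) (hQ : S_Q5) : S_F7 := by
  obtain ⟨μ, hμ⟩ := exists_transcendental
  obtain ⟨L, hN, -⟩ := h4 μ
  let T : Type := Σ (ν : ℂ) (x : Pt (specOver (RR ν))), PH x x
  have hE : ∀ (X : CVar), OverQb X → ∀ x, IsEmpty (L.N X x) := by
    rintro X ⟨V, hV, ⟨i⟩⟩ x
    refine ⟨fun k => ?_⟩
    rw [hN] at k
    exact k.2.2 (hQ μ hμ V hV X.sch i x k.1 k.2.1)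
  refine ⟨thePi L (T → ZMod 2) hE, thePi_agrees L _ hE, fun σ => ⟨fun ε => ?_⟩⟩
  obtain ⟨X, hX⟩ := h5 (σ.symm μ)
  obtain ⟨⟨x⟩, hNB⟩ := h6 μ σ X hX
  obtain ⟨g0⟩ := hNB x
  let y : Pt (X.conj σ).sch := conjPt σ x
  have g : L.N (X.conj σ) y := cast (hN (X.conj σ) y).symm g0
  let E := ee L (T → ZMod 2) hE (X.conj σ) y y
  let s : PH x x → (T → ZMod 2) := fun p => (E (ε.app X p)).2 g
  have hs : Function.Surjective s := by
    intro a
    let q : (L.pi (T → ZMod 2)).Hom (X.conj σ) y y := (.refl y, fun _ => a)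
    obtain ⟨p, hp⟩ := (ε.bij X x x).2 (E.symm q)
    refine ⟨p, ?_⟩
    have h1 : E (ε.app X p) = q := (congrArg E hp).trans (E.apply_symm_apply q)
    exact congrFun (congrArg Prod.snd h1) g
  obtain ⟨sch, hsm, hqp⟩ := X
  dsimp at hX
  subst hX
  have : Nonempty (PH x x) := ⟨.refl x⟩
  exact no_surj T (PH x x) (fun p => ⟨σ.symm μ, x, p⟩) (fun p q h => by
    have h1 := eq_of_heq (Sigma.mk.inj_iff.1 h).2
    exact eq_of_heq (Sigma.mk.inj_iff.1 h1).2) s hs

end Pool.Agent.Q37.GU
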