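import Pool.Agent.Q37.GU.Stm
import Pool.Agent.Q37.GU.Basic
import Pool.Agent.W481.Gm

/-!
Project GU, job P6: the points of a smooth domain are joined by paths.
-/

open CategoryTheory CategoryTheory.Limits AlgebraicGeometry Topology

namespace Pool.Agent.Q37.GU

open Pool.Agent.W481

theorem p6 : S_P6 := by
  intro B _ _ _ _ φ ψ
  have h1 : Smooth (specOver B).hom := smooth_specOver B
  have h2 : IrreducibleSpace (PrimeSpectrum B) := inferInstance
  have h3 : ConnectedSpace (specOver B).left :=
    (inferInstance : ConnectedSpace (PrimeSpectrum B))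
  obtain ⟨p, -⟩ := conn_main (specOver B) h1 h3 (spPt φ) (spPt ψ)
  obtain ⟨γ⟩ := Quotient.exists_rep (p 0)
  let e := isHomeomorph_spPt.homeomorph (spPt (A := B))
  refine ⟨(Path.map γ e.symm.continuous).cast ?_ ?_⟩
  · exact (e.symm_apply_apply φ).symm
  · exact (e.symm_apply_apply ψ).symm

end Pool.Agent.Q37.GU
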