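import Pool.Agent.Q37.GU.Stm
import Pool.Agent.Q37.GU.Basic

/-!
Project GU, job Q4: rigidity, affine form.
-/

open CategoryTheory CategoryTheory.Limits AlgebraicGeometry Topology
open scoped TensorProduct

namespace Pool.Agent.Q37.GU

open Pool.Agent.W481

theorem isOpenMap_comap_equiv {A B : Type} [CommRing A] [CommRing B] [Algebra ℂ A] [Algebra ℂ B]
    (f : A →ₐ[ℂ] B) (hf : Function.Bijective f) : IsOpenMap (Sp.comap f) := by
  let e : A ≃ₐ[ℂ] B := AlgEquiv.ofBijective f hf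
  refine IsOpenMap.of_inverse (f' := Sp.comap e.symm.toAlgHom) (continuous_comap _) ?_ ?_
  · intro φ
    refine AlgHom.ext fun a => ?_
    show φ.hom (e.symm (f a)) = φ.hom a
    exact congrArg φ.hom (e.symm_apply_apply a)
  · intro φ
    refine AlgHom.ext fun b => ?_
    show φ.hom (f (e.symm b)) = φ.hom b
    exact congrArg φ.hom (e.apply_symm_apply b)

theorem isOpenMap_restr {A B R C : Type} [CommRing A] [CommRing B] [CommRing R] [CommRing C]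
    [Algebra ℂ A] [Algebra ℂ B] [Algebra ℂ R] [Algebra ℂ C] [Algebra R C] [IsScalarTower ℂ R C]
    [Algebra.Etale R C] (i : A →ₐ[ℂ] R) (j : B →ₐ[ℂ] R)
    (h : Function.Bijective (Algebra.TensorProduct.lift i j (fun _ _ => Commute.all _ _) :
      A ⊗[ℂ] B →ₐ[ℂ] R)) :
    IsOpenMap (fun χ : Sp C => ((Sp.comap ((IsScalarTower.toAlgHom ℂ R C).comp i) χ : Sp A),
      (Sp.comap ((IsScalarTower.toAlgHom ℂ R C).comp j) χ : Sp B))) := by
  have h1 : IsOpenMap (Sp.comap (IsScalarTower.toAlgHom ℂ R C)) :=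
    isLocalHomeomorph_comap.isOpenMap
  have h2 := isOpenMap_comap_equiv _ h
  have h3 := (sp_tensor_isOpenMap A B).comp (h2.comp h1)
  have e : (fun χ : Sp C => ((Sp.comap ((IsScalarTower.toAlgHom ℂ R C).comp i) χ : Sp A),
      (Sp.comap ((IsScalarTower.toAlgHom ℂ R C).comp j) χ : Sp B))) =
      (fun χ : Sp (A ⊗[ℂ] B) =>
      ((Sp.comap Algebra.TensorProduct.includeLeft χ : Sp A),
        (Sp.comap Algebra.TensorProduct.includeRight χ : Sp B))) ∘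
        (Sp.comap (Algebra.TensorProduct.lift i j (fun _ _ => Commute.all _ _)) ∘
          Sp.comap (IsScalarTower.toAlgHom ℂ R C)) := by
    funext χ
    refine Prod.ext ?_ ?_
    · refine AlgHom.ext fun a => ?_
      show χ.hom (algebraMap R C (i a)) = χ.hom (algebraMap R C
        (Algebra.TensorProduct.lift i j (fun _ _ => Commute.all _ _) (a ⊗ₜ[ℂ] (1 : B))))
      simp
    · refine AlgHom.ext fun b => ?_
      show χ.hom (algebraMap R C (j b)) = χ.hom (algebraMap R C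
        (Algebra.TensorProduct.lift i j (fun _ _ => Commute.all _ _) ((1 : A) ⊗ₜ[ℂ] b)))
      simp
  rw [e]
  exact h3

theorem q4_alg {p q c H M m : ℂ} (h1 : H * c = p * q) (h2 : (H - 1) * (c - 1) = (p - 1) * (q - 1))
    (h3 : (H - M) * (c - m) = (p - m) * (q - M)) (hp : p ≠ c) : M = m := by
  have e1 : H + c = p + q := by linear_combination h1 - h2
  have e2 : (p - c) * (q - c) = 0 := by linear_combination c * e1 - h1
  have e3 : q = c := by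
    rcases mul_eq_zero.1 e2 with h | h
    · exact absurd (sub_eq_zero.1 h) hp
    · exact sub_eq_zero.1 h
  have e4 : H = p := by linear_combination e1 + e3
  have e5 : (p - c) * (M - m) = 0 := by
    rw [e3, e4] at h3
    linear_combination h3
  rcases mul_eq_zero.1 e5 with h | h
  · exact absurd (sub_eq_zero.1 h) hp
  · exact sub_eq_zero.1 h

theorem q4 (ha : S_Q4a) (hP : S_P11) (hT : S_T3) : S_Q4 := by
  intro μ hμ A0 _ _ _ C _ _ _ _ _ _ u hu hu1 huμ ψ₀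
  obtain ⟨B, R', C', _, _, _, _, _, _, _, _, _, _, _, _, i, j, hbij, w, M, hw, hw1, hwM, hM, κ,
    y₀, hκw, hyM, hκi, hκj⟩ := ha μ hμ A0 C u hu hu1 huμ
  let F : Sp C → Sp C' := Sp.comap κ
  have hF : Continuous F := continuous_comap κ
  let D : Sp C' → Sp (ℂ ⊗[Qb] A0) × Sp B := fun χ =>
    ((Sp.comap ((IsScalarTower.toAlgHom ℂ R' C').comp i) χ : Sp (ℂ ⊗[Qb] A0)),
      (Sp.comap ((IsScalarTower.toAlgHom ℂ R' C').comp j) χ : Sp B))
  have hD : IsOpenMap D := isOpenMap_restr i j hbij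
  let r : Sp C → Sp (ℂ ⊗[Qb] A0) := Sp.comap (IsScalarTower.toAlgHom ℂ (ℂ ⊗[Qb] A0) C)
  have hr : Continuous r := continuous_comap _
  have hDF : ∀ ψ, D (F ψ) = (r ψ, y₀) := by
    intro ψ
    refine Prod.ext ?_ ?_
    · refine AlgHom.ext fun a => ?_
      show ψ.hom (κ (algebraMap R' C' (i a))) = ψ.hom (algebraMap _ C a)
      rw [hκi]
    · refine AlgHom.ext fun b => ?_
      show ψ.hom (κ (algebraMap R' C' (j b))) = y₀.hom b
      rw [hκj]
      exact ψ.hom.commutes _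
  have hsm : Algebra.Smooth ℂ (ℂ ⊗[Qb] A0) := inferInstance
  obtain ⟨N1, hN1, k1⟩ := hP (ℂ ⊗[Qb] A0) B R' C' i j hbij w hw (F ψ₀)
  obtain ⟨N2, hN2, k2⟩ := hP (ℂ ⊗[Qb] A0) B R' C' i j hbij (w - 1) hw1 (F ψ₀)
  obtain ⟨N3, hN3, k3⟩ := hP (ℂ ⊗[Qb] A0) B R' C' i j hbij (w - algebraMap R' C' (j M)) hwM (F ψ₀)
  have hN : N1 ∩ (N2 ∩ N3) ∈ 𝓝 (F ψ₀) := Filter.inter_mem hN1 (Filter.inter_mem hN2 hN3)
  have hDN := hD.image_mem_nhds hN
  rw [hDF ψ₀, nhds_prod_eq] at hDN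
  obtain ⟨U, hU, V, hV, hUV⟩ := Filter.mem_prod_iff.1 hDN
  have hev1 : ∀ᶠ ψ in 𝓝 ψ₀, F ψ ∈ N1 ∩ (N2 ∩ N3) := hF.continuousAt.eventually hN
  have hev2 : ∀ᶠ ψ in 𝓝 ψ₀, r ψ ∈ U := hr.continuousAt.eventually hU
  filter_upwards [hev1, hev2] with ψ hψ1 hψ2
  by_contra hne
  have key : ∀ y' ∈ V, y'.hom M = μ := by
    intro y' hy'
    obtain ⟨χ, hχN, hχ⟩ := hUV (Set.mk_mem_prod hψ2 hy')
    obtain ⟨χ₂, hχ₂N, hχ₂⟩ := hUV (Set.mk_mem_prod (mem_of_mem_nhds hU) hy')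
    have a1 : ∀ a, χ.hom (algebraMap R' C' (i a)) = (r ψ).hom a := fun a =>
      congrArg (fun z : Sp (ℂ ⊗[Qb] A0) × Sp B => z.1.hom a) hχ
    have a2 : ∀ b, χ.hom (algebraMap R' C' (j b)) = y'.hom b := fun b =>
      congrArg (fun z : Sp (ℂ ⊗[Qb] A0) × Sp B => z.2.hom b) hχ
    have b1 : ∀ a, χ₂.hom (algebraMap R' C' (i a)) = (r ψ₀).hom a := fun a =>
      congrArg (fun z : Sp (ℂ ⊗[Qb] A0) × Sp B => z.1.hom a) hχ₂
    have b2 : ∀ b, χ₂.hom (algebraMap R' C' (j b)) = y'.hom b := fun b =>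
      congrArg (fun z : Sp (ℂ ⊗[Qb] A0) × Sp B => z.2.hom b) hχ₂
    have c1 : ∀ (ψ : Sp C) a, (F ψ).hom (algebraMap R' C' (i a)) = (r ψ).hom a := fun ψ a =>
      congrArg (fun z : Sp (ℂ ⊗[Qb] A0) × Sp B => z.1.hom a) (hDF ψ)
    have c2 : ∀ (ψ : Sp C) b, (F ψ).hom (algebraMap R' C' (j b)) = y₀.hom b := fun ψ b =>
      congrArg (fun z : Sp (ℂ ⊗[Qb] A0) × Sp B => z.2.hom b) (hDF ψ)
    have d1 := k1 χ hχN.1 (F ψ) hψ1.1 χ₂ hχ₂N.1 (fun a => (c1 ψ a).trans (a1 a).symm)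
      (fun b => (c2 ψ b).trans (c2 ψ₀ b).symm) (fun a => (b1 a).trans (c1 ψ₀ a).symm)
      (fun b => (b2 b).trans (a2 b).symm)
    have d2 := k2 χ hχN.2.1 (F ψ) hψ1.2.1 χ₂ hχ₂N.2.1 (fun a => (c1 ψ a).trans (a1 a).symm)
      (fun b => (c2 ψ b).trans (c2 ψ₀ b).symm) (fun a => (b1 a).trans (c1 ψ₀ a).symm)
      (fun b => (b2 b).trans (a2 b).symm)
    have d3 := k3 χ hχN.2.2 (F ψ) hψ1.2.2 χ₂ hχ₂N.2.2 (fun a => (c1 ψ a).trans (a1 a).symm)
      (fun b => (c2 ψ b).trans (c2 ψ₀ b).symm) (fun a => (b1 a).trans (c1 ψ₀ a).symm)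
      (fun b => (b2 b).trans (a2 b).symm)
    have e1 : ∀ ψ : Sp C, (F ψ).hom w = ψ.hom u := fun ψ => congrArg ψ.hom hκw
    simp only [map_sub, map_one, a2, b2, c2, e1, hyM] at d1 d2 d3
    exact q4_alg d1 d2 d3 hne
  have hne0 : M - algebraMap ℂ B μ ≠ 0 := fun h => hM μ (sub_eq_zero.1 h)
  have hdense := hT B (M - algebraMap ℂ B μ) hne0
  obtain ⟨y', hy', hy'V⟩ := hdense.inter_nhds_nonempty hV
  apply hy'
  show y'.hom (M - algebraMap ℂ B μ) = 0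
  rw [map_sub, key y' hy'V]
  have : y'.hom (algebraMap ℂ B μ) = μ := y'.hom.commutes μ
  rw [this, sub_self]

end Pool.Agent.Q37.GU
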