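import Pool.Agent.Q149.GU_T1
import Pool.Agent.Q182.GU_T3
import Pool.Agent.Q94.GU_T9
import Pool.Agent.Q113.GU_T7
import Pool.Agent.Q113.GU_T2
import Pool.Agent.Q91.GU_P9
import Pool.Agent.Q186.GU.PFive
import Pool.Agent.Q92.GU.P1
import Pool.Agent.Q92.GU.P2
import Pool.Agent.Q91.GU_P3
import Pool.Agent.Q37.GU.P6
import Pool.Agent.Q39.GU.P7
import Pool.Agent.Q278.GU_P8
import Pool.Agent.Q278.GU_P13
import Pool.Agent.Q40.GU_P10
import Pool.Agent.Q87.GU_P11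
import Pool.Agent.Q86.GU_P14
import Pool.Agent.Q86.GU_P15
import Pool.Agent.Q86.GU_P16
import Pool.Agent.Q40.GU_Q1
import Pool.Agent.Q231.GU_Q2a
import Pool.Agent.Q194.GU_Q3
import Pool.Agent.Q37.GU.Q4
import Pool.Agent.Q58.GU_Q5
import Pool.Agent.Q194.GU_F4
import Pool.Agent.Q37.GU.F2
import Pool.Agent.Q37.GU.F3
import Pool.Agent.Q37.GU.F5
import Pool.Agent.Q37.GU.F7
import Pool.Agent.Q143.GU_Q2
import Pool.Agent.Q231.GU_F6
import Pool.Agent.Q154.GU_P4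
import Pool.Agent.Q130.GU_T4
import Pool.Agent.Q38.GU_Q4a

/-!
# Project GU: assembly
-/

set_option autoImplicit false

namespace Pool.Agent.Q37.GU

/-- The topological fundamental groupoid functor is not determined, up to equivalence and twists, by
its restriction to the varieties over the algebraic numbers. -/
theorem main : S_F7 := by
  have P4 : S_P4 := Q154.GU_P4.p4
  have P5 : S_P5 := p5 P4
  have T4 : S_T4 := Q130.GU_T4.t4 P5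
  have T1 : S_T1 := Q149.GU_T1.t1
  have T3 : S_T3 := Q182.GU_T3.t3
  have T9 : S_T9 := Q94.GU_T9.t9
  have T7a : S_T7a := Q113.GU_T7.t7a
  have T7b : S_T7b := Q113.GU_T7.t7b
  have T2 : S_T2 := Q113.GU_T2.t2 T3 T4
  have T5 : S_T5 := Q113.GU_T2.t5 T1
  have T6 : S_T6 := Q113.GU_T7.t6 T1 T2
  have T8 : S_T8 := Q113.GU_T2.t8 T1 T2 T9
  have T11 : S_T11 := Q113.GU_T2.t11 T1 T5 T6
  have T10 : S_T10 := Pool.Agent.Q91.GU_P9.t10
  have P1 : S_P1 := Pool.Agent.Q92.GU.t_P1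
  have P2 : S_P2 := Pool.Agent.Q92.GU.t_P2
  have P3 : S_P3 := Pool.Agent.Q91.GU_P3.p3 P1 P2
  have P6 : S_P6 := p6
  have P7 : S_P7 := Q39.GU.P7.p7
  have P8 : S_P8 := Q278.GU_P8.p8
  have P9 : S_P9 := Pool.Agent.Q91.GU_P9.p9 P5
  have P10 : S_P10 := Pool.Agent.Q40.GU_P10.p10 P6 P7 P8 P9
  have P11 : S_P11 := Q87.GU_P11.p11 P3 P10
  have P13 : S_P13 := Q278.GU_P13.p13
  have P14 : S_P14 := Q86.GU_P14.p14 P11 P13
  have P15 : S_P15 := Q86.GU_P15.p15 P14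
  have P16 : S_P16 := Q86.GU_P16.p16 P15 T7a
  have Q1 : S_Q1 := Pool.Agent.Q40.GU_Q1.q1
  have Q2a : S_Q2a := Pool.Agent.Q231.GU_Q2a.q2a
  have Q2 : S_Q2 := Q143.GU_Q2.q2 Q2a
  have Q3 : S_Q3 := Pool.Agent.Q194.GU_Q3.q3 Q2
  have Q4a : S_Q4a := Q38.GU_Q4a.q4a Q3
  have Q4 : S_Q4 := q4 Q4a P11 T3
  have Q5 : S_Q5 := Q58.GU_Q5.q5 Q1 Q4 P13 T1
  have F4 : S_F4 := Pool.Agent.Q194.GU_F4.f4 T1 T5 T6 T7a T7b T8 T10 T11 P16
  have F6 : S_F6 := Pool.Agent.Q231.GU_F6.f6 T2 T9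
  exact f7 F4 f5 F6 Q5

end Pool.Agent.Q37.GU
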